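import Pool.Agent.Helper119.LC.Defs

open Filter Topology

namespace Pool.Agent.Helper119.LC

/-- `m` is the number of the piece of the curve containing the parameter `s`. -/
def Val (m : ℕ) (s : ℝ) : Prop := s ^ (m + 2) + s ^ (m + 1) ≤ 1 ∧ 1 ≤ s ^ (m + 1) + s ^ m

noncomputable def NN (m : ℕ) (s : ℝ) : ℝ := s ^ (m + 1) + s ^ m - 1
noncomputable def MM (m : ℕ) (s : ℝ) : ℝ := 1 - s ^ (m + 2) - s ^ (m + 1)

theorem NM (m : ℕ) (s : ℝ) : NN m s + MM m s = s ^ m * (1 - s ^ 2) := by
  unfold NN MM; ring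

theorem exists_val {s : ℝ} (h0 : 0 ≤ s) (h1 : s < 1) : ∃ m, Val m s := by
  classical
  have hex : ∃ m : ℕ, s ^ (m + 2) + s ^ (m + 1) ≤ 1 := by
    obtain ⟨n, hn⟩ := exists_pow_lt_of_lt_one (show (0 : ℝ) < 1 / 2 by norm_num) h1
    refine ⟨n, ?_⟩
    have a1 : s ^ (n + 1) ≤ s ^ n := pow_le_pow_of_le_one h0 h1.le (Nat.le_succ n)
    have a2 : s ^ (n + 2) ≤ s ^ n := pow_le_pow_of_le_one h0 h1.le (by omega)
    linarith
  refine ⟨Nat.find hex, Nat.find_spec hex, ?_⟩
  rcases Nat.eq_zero_or_pos (Nat.find hex) with h | h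
  · rw [h]; simp; exact h0
  · obtain ⟨k, hk⟩ := Nat.exists_eq_succ_of_ne_zero h.ne'
    have := Nat.find_min hex (m := k) (by omega)
    push Not at this
    rw [hk]
    simp only [Nat.succ_eq_add_one]
    exact this.le

noncomputable def Psi (m : ℕ) (s t : ℝ) : ℝ :=
  min (m + 1 + NN m s / ((1 - s) * t)) (m + 2 - MM m s / ((1 - s) * t))

section
variable {m : ℕ} {s t : ℝ}

theorem cA_eq' (h1 : s < 1) : cA m s = m + 2 - MM m s / (1 - s) := by
  have : 1 - s ≠ 0 := by linarith
  unfold cA MM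
  field_simp
  ring

theorem le_Psi (h0 : 0 < s) (h1 : s < 1) (hv : Val m s) (ht : 1 ≤ t) (ht' : t ≤ 1 / s) :
    cA m s ≤ Psi m s t := by
  have hN : 0 ≤ NN m s := by unfold NN; linarith [hv.2]
  have hM : 0 ≤ MM m s := by unfold MM; linarith [hv.1]
  have h1s : 0 < 1 - s := by linarith
  have ht0 : 0 < t := by linarith
  apply le_min
  · have e : cA m s = m + 1 + NN m s * s / (1 - s) := by unfold cA NN; ring
    rw [e]
    have : NN m s * s / (1 - s) ≤ NN m s / ((1 - s) * t) := by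
      rw [div_le_div_iff₀ h1s (by positivity)]
      have hts : t * s ≤ 1 := by rwa [le_div_iff₀ h0] at ht'
      have : NN m s * (1 - s) * (t * s) ≤ NN m s * (1 - s) * 1 :=
        mul_le_mul_of_nonneg_left hts (by positivity)
      nlinarith
    linarith
  · rw [cA_eq' h1]
    have : MM m s / ((1 - s) * t) ≤ MM m s / (1 - s) := by
      apply div_le_div_of_nonneg_left hM h1s
      nlinarith
    linarith

theorem Psi_one (h1 : s < 1) : Psi m s 1 ≤ cA m s := by
  rw [cA_eq' h1]
  refine (min_le_right _ _).trans (le_of_eq ?_)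
  rw [mul_one]

theorem cB_eq (hs : s ^ m * (1 - s ^ 2) ≠ 0) :
    cB m s = m + 2 - MM m s / (s ^ m * (1 - s ^ 2)) := by
  have h := NM m s
  have : MM m s = s ^ m * (1 - s ^ 2) - NN m s := by linarith
  rw [this, sub_div, div_self hs]
  unfold cB NN
  ring

theorem Psi_le (h0 : 0 < s) (h1 : s < 1) (hv : Val m s) (ht : 1 ≤ t) :
    Psi m s t ≤ cB m s := by
  have hN : 0 ≤ NN m s := by unfold NN; linarith [hv.2]
  have hM : 0 ≤ MM m s := by unfold MM; linarith [hv.1]
  have h1s : 0 < 1 - s := by linarith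
  have ht0 : 0 < t := by linarith
  have hsm : 0 < s ^ m := by positivity
  have hK : 0 < s ^ m * (1 - s ^ 2) := by
    have : 0 < 1 - s ^ 2 := by nlinarith
    positivity
  have hKe : s ^ m * (1 - s ^ 2) = (1 - s) * (s ^ m * (1 + s)) := by ring
  rcases le_total t (s ^ m * (1 + s)) with h | h
  · refine (min_le_right _ _).trans ?_
    rw [cB_eq hK.ne']
    have : MM m s / (s ^ m * (1 - s ^ 2)) ≤ MM m s / ((1 - s) * t) := by
      apply div_le_div_of_nonneg_left hM (by positivity)
      rw [hKe]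
      exact mul_le_mul_of_nonneg_left h h1s.le
    linarith
  · refine (min_le_left _ _).trans ?_
    have : NN m s / ((1 - s) * t) ≤ NN m s / (s ^ m * (1 - s ^ 2)) := by
      apply div_le_div_of_nonneg_left hN hK
      rw [hKe]
      exact mul_le_mul_of_nonneg_left h h1s.le
    have e : cB m s = m + 1 + NN m s / (s ^ m * (1 - s ^ 2)) := rfl
    rw [e]
    linarith

/-- near the maximum -/
theorem Psi_near (h0 : 0 < s) (h1 : s < 1) (hv : Val m s) (ht : 1 ≤ t) :
    cB m s - 2 * |t - s ^ m * (1 + s)| ≤ Psi m s t := by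
  have hN : 0 ≤ NN m s := by unfold NN; linarith [hv.2]
  have hM : 0 ≤ MM m s := by unfold MM; linarith [hv.1]
  have h1s : 0 < 1 - s := by linarith
  have ht0 : 0 < t := by linarith
  have hsm : 0 < s ^ m := by positivity
  have hK : 0 < s ^ m * (1 - s ^ 2) := by
    have : 0 < 1 - s ^ 2 := by nlinarith
    positivity
  set c := s ^ m * (1 + s) with hc
  have hc1 : 1 ≤ c := by
    rw [hc]; have := hv.2; rw [pow_succ] at this; linarith
  have hc2 : c ≤ 2 := by
    have : s ^ m ≤ 1 := pow_le_one₀ h0.le h1.le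
    rw [hc]; nlinarith
  have hKe : s ^ m * (1 - s ^ 2) = (1 - s) * c := by rw [hc]; ring
  have hNM := NM m s
  rw [hKe] at hNM
  have gen : ∀ Q : ℝ, 0 ≤ Q → Q ≤ (1 - s) * c → |Q / ((1 - s) * c) - Q / ((1 - s) * t)| ≤
      2 * |t - c| := by
    intro Q hQ0 hQ
    have e : Q / ((1 - s) * c) - Q / ((1 - s) * t) = (Q / ((1 - s) * c)) * ((t - c) / t) := by
      field_simp
    rw [e, abs_mul, abs_div (t - c), abs_of_pos ht0]
    have q1 : |Q / ((1 - s) * c)| ≤ 1 := by
      rw [abs_of_nonneg (by positivity), div_le_one (by positivity)]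
      exact hQ
    have q2 : |t - c| / t ≤ |t - c| := div_le_self (abs_nonneg _) ht
    have q3 := mul_le_mul q1 q2 (by positivity) zero_le_one
    linarith [abs_nonneg (t - c)]
  apply le_min
  · have e : cB m s = m + 1 + NN m s / (s ^ m * (1 - s ^ 2)) := rfl
    rw [e, hKe]
    have := (abs_le.1 (gen (NN m s) hN (by linarith))).2
    linarith
  · rw [cB_eq hK.ne', hKe]
    have := (abs_le.1 (gen (MM m s) hM (by linarith))).1
    linarith

/-- Closed form of the limit function. -/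
theorem tsum_eq (h0 : 0 < s) (h1 : s < 1) (hv : Val m s) (ht : 1 ≤ t) (ht' : t ≤ 1 / s) :
    HasSum (fun j : ℕ => min (s ^ (j + 1)) (t - s ^ j)) ((Psi m s t - 1) * t) := by
  have h1s : 0 < 1 - s := by linarith
  have ht0 : 0 < t := by linarith
  have hts : t * s ≤ 1 := by rwa [le_div_iff₀ h0] at ht'
  have htail : HasSum (fun j : ℕ => min (s ^ (j + (m + 1) + 1)) (t - s ^ (j + (m + 1))))
      (s ^ (m + 2) / (1 - s)) := by
    have hg := (hasSum_geometric_of_lt_one h0.le h1).mul_left (s ^ (m + 2))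
    rw [← div_eq_mul_inv] at hg
    refine hg.congr_fun ?_ |> fun h => h
    intro j
    rw [min_eq_left]
    · ring
    · have : s ^ (j + (m + 1) + 1) + s ^ (j + (m + 1)) = s ^ j * (s ^ (m + 2) + s ^ (m + 1)) := by
        ring
      have h2 : s ^ j * (s ^ (m + 2) + s ^ (m + 1)) ≤ 1 * 1 :=
        mul_le_mul (pow_le_one₀ h0.le h1.le) hv.1 (by positivity) zero_le_one
      linarith
  have hsum : ∑ j ∈ Finset.range (m + 1), min (s ^ (j + 1)) (t - s ^ j) =
      m * t - (1 - s ^ m) / (1 - s) + min (s ^ (m + 1)) (t - s ^ m) := by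
    rw [Finset.sum_range_succ]
    congr 1
    have : ∀ j ∈ Finset.range m, min (s ^ (j + 1)) (t - s ^ j) = t - s ^ j := by
      intro j hj
      rw [Finset.mem_range] at hj
      rw [min_eq_right]
      have e1 : s ^ (j + 1) + s ^ j = s ^ j * (1 + s) := by ring
      have e2 : s ^ (m + 1) + s ^ m = s ^ m * (1 + s) := by ring
      have h3 := hv.2
      rw [e2] at h3
      have h4 : s ^ m ≤ s ^ (j + 1) := pow_le_pow_of_le_one h0.le h1.le hj
      have h5 : 1 ≤ s ^ (j + 1) * (1 + s) := h3.trans (mul_le_mul_of_nonneg_right h4 (by linarith))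
      have h6 : t * 1 ≤ t * (s ^ (j + 1) * (1 + s)) := mul_le_mul_of_nonneg_left h5 ht0.le
      have h7 : t * (s ^ (j + 1) * (1 + s)) = (t * s) * (s ^ j * (1 + s)) := by ring
      have h8 : (t * s) * (s ^ j * (1 + s)) ≤ 1 * (s ^ j * (1 + s)) :=
        mul_le_mul_of_nonneg_right hts (by positivity)
      linarith
    rw [Finset.sum_congr rfl this, Finset.sum_sub_distrib, geom_sum_eq h1.ne]
    simp only [Finset.sum_const, Finset.card_range, nsmul_eq_mul]
    congr 1
    rw [← neg_sub (s ^ m) 1, ← neg_sub s 1, neg_div_neg_eq]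
  have hs := (hasSum_nat_add_iff (f := fun j : ℕ => min (s ^ (j + 1)) (t - s ^ j)) (m + 1)).1 htail
  have hval : s ^ (m + 2) / (1 - s) + ∑ j ∈ Finset.range (m + 1), min (s ^ (j + 1)) (t - s ^ j) =
      (Psi m s t - 1) * t := by
    rw [hsum]
    have hc : s ^ (m + 1) + s ^ m = s ^ m * (1 + s) := by ring
    rcases le_total t (s ^ m * (1 + s)) with h | h
    · rw [min_eq_right (by linarith)]
      have hP : Psi m s t = m + 2 - MM m s / ((1 - s) * t) := by
        unfold Psi
        apply min_eq_right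
        have hNM := NM m s
        have : NN m s / ((1 - s) * t) + MM m s / ((1 - s) * t) ≥ 1 := by
          rw [← add_div, hNM, ge_iff_le, one_le_div (by positivity)]
          have : s ^ m * (1 - s ^ 2) = (1 - s) * (s ^ m * (1 + s)) := by ring
          rw [this]
          exact mul_le_mul_of_nonneg_left h h1s.le
        linarith
      rw [hP]
      unfold MM
      field_simp
      ring
    · rw [min_eq_left (by linarith)]
      have hP : Psi m s t = m + 1 + NN m s / ((1 - s) * t) := by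
        unfold Psi
        apply min_eq_left
        have hNM := NM m s
        have : NN m s / ((1 - s) * t) + MM m s / ((1 - s) * t) ≤ 1 := by
          rw [← add_div, hNM, div_le_one (by positivity)]
          have : s ^ m * (1 - s ^ 2) = (1 - s) * (s ^ m * (1 + s)) := by ring
          rw [this]
          exact mul_le_mul_of_nonneg_left h h1s.le
        linarith
      rw [hP]
      unfold NN
      field_simp
      ring
  rw [← hval]
  exact hs

end

/-- bounds for the curve -/
theorem cA_bds {m : ℕ} {s : ℝ} (h0 : 0 ≤ s) (h1 : s < 1) (hv : Val m s) :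
    m + 1 ≤ cA m s ∧ cA m s ≤ m + 2 := by
  have h1s : 0 < 1 - s := by linarith
  constructor
  · unfold cA
    have : 0 ≤ s * (s ^ (m + 1) + s ^ m - 1) / (1 - s) :=
      div_nonneg (mul_nonneg h0 (by linarith [hv.2])) h1s.le
    linarith
  · rw [cA_eq' h1]
    have : 0 ≤ MM m s / (1 - s) := div_nonneg (by unfold MM; linarith [hv.1]) h1s.le
    linarith

theorem cB_bds {m : ℕ} {s : ℝ} (h0 : 0 < s) (h1 : s < 1) (hv : Val m s) :
    m + 1 ≤ cB m s ∧ cB m s ≤ m + 2 := by
  have hK : 0 < s ^ m * (1 - s ^ 2) := by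
    have : 0 < 1 - s ^ 2 := by nlinarith
    positivity
  constructor
  · unfold cB
    have : 0 ≤ (s ^ (m + 1) + s ^ m - 1) / (s ^ m * (1 - s ^ 2)) :=
      div_nonneg (by linarith [hv.2]) hK.le
    linarith
  · rw [cB_eq hK.ne']
    have : 0 ≤ MM m s / (s ^ m * (1 - s ^ 2)) := div_nonneg (by unfold MM; linarith [hv.1]) hK.le
    linarith

theorem val_zero {m : ℕ} (h : Val m 0) : m = 0 := by
  by_contra hm
  have := h.2
  rw [zero_pow (by omega), zero_pow hm] at this
  linarith

/-- If `s ≤ s'` and the pieces are in the wrong order then both points are at a common end. -/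
theorem val_anti {m m' : ℕ} {s s' : ℝ} (h0 : 0 ≤ s) (h : s ≤ s') (h1 : s' < 1) (hv : Val m s)
    (hv' : Val m' s') (hm : m' < m) : m = m' + 1 ∧ s ^ (m + 1) + s ^ m = 1 ∧
      s' ^ (m' + 2) + s' ^ (m' + 1) = 1 := by
  have hs1 : s < 1 := lt_of_le_of_lt h h1
  have a1 : s ^ (m' + 2) + s ^ (m' + 1) ≤ s' ^ (m' + 2) + s' ^ (m' + 1) :=
    add_le_add (pow_le_pow_left₀ h0 h _) (pow_le_pow_left₀ h0 h _)
  have a2 : s ^ (m + 1) + s ^ m ≤ s ^ (m' + 2) + s ^ (m' + 1) :=
    add_le_add (pow_le_pow_of_le_one h0 hs1.le (by omega))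
      (pow_le_pow_of_le_one h0 hs1.le (by omega))
  have b1 := hv.2
  have b2 := hv'.1
  refine ⟨?_, by linarith, by linarith⟩
  by_contra hne
  have hm2 : m' + 2 ≤ m := by omega
  have a3 : s ^ (m + 1) + s ^ m ≤ s * (s ^ (m' + 2) + s ^ (m' + 1)) := by
    have e : s * (s ^ (m' + 2) + s ^ (m' + 1)) = s ^ (m' + 3) + s ^ (m' + 2) := by ring
    rw [e]
    exact add_le_add (pow_le_pow_of_le_one h0 hs1.le (by omega))
      (pow_le_pow_of_le_one h0 hs1.le (by omega))
  nlinarith

theorem cA_mono {m m' : ℕ} {s s' : ℝ} (h0 : 0 ≤ s) (h : s ≤ s') (h1 : s' < 1) (hv : Val m s)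
    (hv' : Val m' s') : cA m s ≤ cA m' s' := by
  have hs1 : s < 1 := lt_of_le_of_lt h h1
  rcases lt_trichotomy m m' with hm | hm | hm
  · have a1 := (cA_bds h0 hs1 hv).2
    have a2 := (cA_bds (h0.trans h) h1 hv').1
    have : (m : ℝ) + 1 ≤ m' := by exact_mod_cast hm
    linarith
  · subst hm
    unfold cA
    have e1 : s ^ (m + 1) ≤ s' ^ (m + 1) := pow_le_pow_left₀ h0 h _
    have e2 : s ^ m ≤ s' ^ m := pow_le_pow_left₀ h0 h _
    have : s * (s ^ (m + 1) + s ^ m - 1) / (1 - s) ≤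
        s' * (s' ^ (m + 1) + s' ^ m - 1) / (1 - s') := by
      apply div_le_div₀
      · exact mul_nonneg (h0.trans h) (by linarith [hv'.2])
      · exact mul_le_mul h (by linarith) (by linarith [hv.2]) (h0.trans h)
      · linarith
      · linarith
    linarith
  · obtain ⟨e1, e2, e3⟩ := val_anti h0 h h1 hv hv' hm
    have a1 : cA m s = m + 1 := by unfold cA; rw [e2]; simp
    have a2 : cA m' s' = m' + 2 := by
      rw [cA_eq' h1]; unfold MM
      have : 1 - s' ^ (m' + 2) - s' ^ (m' + 1) = 0 := by linarith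
      rw [this]; simp
    rw [a1, a2, e1]; push_cast; linarith

theorem cB_mono {m m' : ℕ} {s s' : ℝ} (h0 : 0 < s) (h : s ≤ s') (h1 : s' < 1) (hv : Val m s)
    (hv' : Val m' s') : cB m s ≤ cB m' s' := by
  have hs1 : s < 1 := lt_of_le_of_lt h h1
  have h0' : 0 < s' := lt_of_lt_of_le h0 h
  have hK' : 0 < s' ^ m' * (1 - s' ^ 2) := by
    have : 0 < 1 - s' ^ 2 := by nlinarith
    positivity
  rcases lt_trichotomy m m' with hm | hm | hm
  · have a1 := (cB_bds h0 hs1 hv).2
    have a2 := (cB_bds h0' h1 hv').1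
    have : (m : ℝ) + 1 ≤ m' := by exact_mod_cast hm
    linarith
  · subst hm
    have form : ∀ x : ℝ, 0 < x → x < 1 → (x ^ (m + 1) + x ^ m - 1) / (x ^ m * (1 - x ^ 2)) =
        (1 + x - (x ^ m)⁻¹) / (1 - x ^ 2) := by
      intro x hx hx1
      have e1 : x ^ m ≠ 0 := by positivity
      have e2 : 1 - x ^ 2 ≠ 0 := by nlinarith
      field_simp
      ring
    unfold cB
    rw [form s h0 hs1, form s' h0' h1]
    have e2 : s ^ m ≤ s' ^ m := pow_le_pow_left₀ h0.le h _
    have e3 : (s' ^ m)⁻¹ ≤ (s ^ m)⁻¹ := inv_anti₀ (by positivity) e2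
    have e4 : 0 ≤ 1 + s' - (s' ^ m)⁻¹ := by
      have hv2 := hv'.2
      have hp : 0 < s' ^ m := by positivity
      have : (s' ^ m)⁻¹ * 1 ≤ (s' ^ m)⁻¹ * (s' ^ (m + 1) + s' ^ m) :=
        mul_le_mul_of_nonneg_left hv2 (by positivity)
      have e : (s' ^ m)⁻¹ * (s' ^ (m + 1) + s' ^ m) = s' + 1 := by
        field_simp
        ring
      linarith
    have : (1 + s - (s ^ m)⁻¹) / (1 - s ^ 2) ≤ (1 + s' - (s' ^ m)⁻¹) / (1 - s' ^ 2) := by
      apply div_le_div₀ e4
      · linarith
      · nlinarith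
      · nlinarith
    linarith
  · obtain ⟨e1, e2, e3⟩ := val_anti h0.le h h1 hv hv' hm
    have a1 : cB m s = m + 1 := by unfold cB; rw [e2]; simp
    have a2 : cB m' s' = m' + 2 := by
      rw [cB_eq hK'.ne']; unfold MM
      have : 1 - s' ^ (m' + 2) - s' ^ (m' + 1) = 0 := by linarith
      rw [this]; simp
    rw [a1, a2, e1]; push_cast; linarith

end Pool.Agent.Helper119.LC
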