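import Pool.Agent.Helper119.LC.Count
import Pool.Agent.Helper119.LC.Curve

open Filter Topology

namespace Pool.Agent.Helper119.LC

/-- The distances between consecutive ones. -/
noncomputable def Dq (s : ℕ → ℝ) (d : ℕ) : ℕ → ℕ
  | 0 => d
  | k + 1 => ⌊(Dq s d k : ℝ) / s k⌋₊

structure Hyp (s : ℕ → ℝ) (d : ℕ) (q : ℝ) : Prop where
  pos : ∀ k, 0 < s k
  le : ∀ k, s k ≤ q
  lt : q < 1
  slow : Tendsto (fun k => s (k + 1) - s k) atTop (𝓝 0)
  dpos : 0 < d
  dbig : 2 * q / (1 - q) ≤ d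

noncomputable def th (q : ℝ) : ℝ := 2 * q / (1 + q)

variable {s : ℕ → ℝ} {d : ℕ} {q : ℝ}

theorem Hyp.q0 (h : Hyp s d q) : 0 < q := lt_of_lt_of_le (h.pos 0) (h.le 0)

theorem th_pos (h : Hyp s d q) : 0 < th q := by
  have := h.q0
  unfold th; positivity

theorem th_lt (h : Hyp s d q) : th q < 1 := by
  have h1 := h.q0
  have h2 := h.lt
  unfold th
  rw [div_lt_one (by linarith)]
  linarith

theorem q_le_th (h : Hyp s d q) : q ≤ th q := by
  have h1 := h.q0
  have h2 := h.lt
  unfold th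
  rw [le_div_iff₀ (by linarith)]
  nlinarith

theorem Dq_succ (k : ℕ) : Dq s d (k + 1) = ⌊(Dq s d k : ℝ) / s k⌋₊ := rfl

theorem Dq_up (h : Hyp s d q) (k : ℕ) : (Dq s d (k + 1) : ℝ) ≤ Dq s d k / s k := by
  rw [Dq_succ]
  exact Nat.floor_le (div_nonneg (Nat.cast_nonneg _) (h.pos k).le)

theorem Dq_lo (_ : Hyp s d q) (k : ℕ) : (Dq s d k : ℝ) / s k - 1 < Dq s d (k + 1) := by
  rw [Dq_succ]
  have := Nat.lt_floor_add_one ((Dq s d k : ℝ) / s k)
  linarith

theorem Dq_growth (h : Hyp s d q) (k : ℕ) :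
    (d : ℝ) ≤ Dq s d k ∧ (Dq s d k : ℝ) ≤ th q * Dq s d (k + 1) := by
  have h1 := h.q0
  have h2 := h.lt
  have step : ∀ k, (d : ℝ) ≤ Dq s d k → (Dq s d k : ℝ) ≤ th q * Dq s d (k + 1) := by
    intro k hk
    have h3 := Dq_lo h k
    have h4 : (Dq s d k : ℝ) / q ≤ Dq s d k / s k :=
      div_le_div_of_nonneg_left (Nat.cast_nonneg _) (h.pos k) (h.le k)
    have h5 : (Dq s d k : ℝ) / q - 1 < Dq s d (k + 1) := by linarith
    have h6 : 2 * q ≤ Dq s d k * (1 - q) := by
      have := h.dbig.trans hk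
      rwa [div_le_iff₀ (by linarith)] at this
    have h7 : (Dq s d k : ℝ) - q < q * Dq s d (k + 1) := by
      have := mul_lt_mul_of_pos_left h5 h1
      rw [mul_sub, mul_div_cancel₀ _ h1.ne'] at this
      linarith
    unfold th
    rw [div_mul_eq_mul_div, le_div_iff₀ (by linarith)]
    nlinarith
  have hd : ∀ k, (d : ℝ) ≤ Dq s d k := by
    intro k
    induction k with
    | zero => exact le_refl _
    | succ k ih =>
      have h3 := step k ih
      have h4 := th_lt h
      have : th q * Dq s d (k + 1) ≤ 1 * Dq s d (k + 1) :=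
        mul_le_mul_of_nonneg_right h4.le (Nat.cast_nonneg _)
      linarith
  exact ⟨hd k, step k (hd k)⟩

theorem Dq_pos (h : Hyp s d q) (k : ℕ) : (0 : ℝ) < Dq s d k := by
  have : (0 : ℝ) < d := by exact_mod_cast h.dpos
  linarith [(Dq_growth h k).1]

theorem Dq_mono (h : Hyp s d q) : StrictMono (Dq s d) := by
  apply strictMono_nat_of_lt_succ
  intro k
  have h1 := (Dq_growth h k).2
  have h2 := Dq_pos h (k + 1)
  have h3 : th q * Dq s d (k + 1) < 1 * Dq s d (k + 1) :=
    mul_lt_mul_of_pos_right (th_lt h) h2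
  have : (Dq s d k : ℝ) < Dq s d (k + 1) := by linarith
  exact_mod_cast this

theorem Dq_tendsto (h : Hyp s d q) : Tendsto (Dq s d) atTop atTop := (Dq_mono h).tendsto_atTop

theorem inv_D_tendsto (h : Hyp s d q) : Tendsto (fun k => 1 / (Dq s d k : ℝ)) atTop (𝓝 0) :=
  tendsto_one_div_atTop_nhds_zero_nat.comp (Dq_tendsto h)

theorem ratio_lim (h : Hyp s d q) :
    Tendsto (fun k => (Dq s d k : ℝ) / Dq s d (k + 1) - s k) atTop (𝓝 0) := by
  refine squeeze_zero (g := fun k => 1 / (Dq s d (k + 1) : ℝ)) ?_ ?_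
    ((tendsto_add_atTop_iff_nat 1).2 (inv_D_tendsto h))
  · intro k
    have h1 := Dq_up h k
    have h2 := Dq_pos h (k + 1)
    rw [le_div_iff₀ (h.pos k)] at h1
    rw [sub_nonneg, le_div_iff₀ h2]
    linarith
  · intro k
    have h1 := Dq_lo h k
    have h2 := Dq_pos h (k + 1)
    have h3 := h.pos k
    have h4 : s k ≤ 1 := (h.le k).trans h.lt.le
    have h5 : (Dq s d k : ℝ) < s k * Dq s d (k + 1) + s k := by
      have : (Dq s d k : ℝ) / s k < Dq s d (k + 1) + 1 := by linarith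
      rw [div_lt_iff₀ h3] at this
      linarith
    rw [sub_le_iff_le_add, div_le_iff₀ h2, add_mul, div_mul_cancel₀ _ h2.ne']
    linarith

theorem mul_lim {u v : ℕ → ℝ} (hu : ∀ k, |u k| ≤ 1) (hv : Tendsto v atTop (𝓝 0)) :
    Tendsto (fun k => u k * v k) atTop (𝓝 0) := by
  have hv' : Tendsto (fun k => |v k|) atTop (𝓝 0) := by simpa using hv.abs
  refine squeeze_zero_norm (fun k => ?_) hv'
  rw [Real.norm_eq_abs, abs_mul]
  have := mul_le_mul_of_nonneg_right (hu k) (abs_nonneg (v k))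
  linarith

theorem pow_lim (h : Hyp s d q) (j : ℕ) :
    Tendsto (fun k => s k ^ j - s (k + 1) ^ j) atTop (𝓝 0) := by
  have hb : ∀ k, 0 ≤ s k ∧ s k ≤ 1 := fun k => ⟨(h.pos k).le, (h.le k).trans h.lt.le⟩
  have hs : Tendsto (fun k => s k - s (k + 1)) atTop (𝓝 0) := by
    have := h.slow.neg
    simpa using this
  induction j with
  | zero => simp
  | succ j ih =>
    have h1 : Tendsto (fun k => s k ^ j * (s k - s (k + 1))) atTop (𝓝 0) := by
      apply mul_lim _ hs
      intro k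
      rw [abs_of_nonneg (pow_nonneg (hb k).1 _)]
      exact pow_le_one₀ (hb k).1 (hb k).2
    have h2 : Tendsto (fun k => s (k + 1) * (s k ^ j - s (k + 1) ^ j)) atTop (𝓝 0) := by
      apply mul_lim _ ih
      intro k
      rw [abs_of_nonneg (hb (k + 1)).1]
      exact (hb (k + 1)).2
    have h3 := h1.add h2
    rw [add_zero] at h3
    refine h3.congr fun k => ?_
    ring

theorem prod_lim (h : Hyp s d q) (j : ℕ) :
    Tendsto (fun k => (Dq s d k : ℝ) / Dq s d (k + j) - s (k + j) ^ j) atTop (𝓝 0) := by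
  induction j with
  | zero =>
    refine tendsto_const_nhds.congr fun k => ?_
    have := (Dq_pos h k).ne'
    simp [this]
  | succ j ih =>
    have hb : ∀ k, 0 ≤ s k ∧ s k ≤ 1 := fun k => ⟨(h.pos k).le, (h.le k).trans h.lt.le⟩
    have h1 : Tendsto (fun k => ((Dq s d (k + j) : ℝ) / Dq s d (k + j + 1)) *
        ((Dq s d k : ℝ) / Dq s d (k + j) - s (k + j) ^ j)) atTop (𝓝 0) := by
      apply mul_lim _ ih
      intro k
      have p1 := Dq_pos h (k + j)
      have p2 := Dq_pos h (k + j + 1)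
      rw [abs_of_nonneg (by positivity), div_le_one p2]
      exact_mod_cast (Dq_mono h (Nat.lt_succ_self _)).le
    have h2 : Tendsto (fun k => s (k + j) ^ j *
        ((Dq s d (k + j) : ℝ) / Dq s d (k + j + 1) - s (k + j))) atTop (𝓝 0) := by
      apply mul_lim _ ((tendsto_add_atTop_iff_nat j).2 (ratio_lim h))
      intro k
      rw [abs_of_nonneg (pow_nonneg (hb _).1 _)]
      exact pow_le_one₀ (hb _).1 (hb _).2
    have h3 : Tendsto (fun k => s (k + j) ^ (j + 1) - s (k + j + 1) ^ (j + 1)) atTop (𝓝 0) :=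
      (tendsto_add_atTop_iff_nat j).2 (pow_lim h (j + 1))
    have h4 := (h1.add h2).add h3
    simp only [add_zero] at h4
    refine h4.congr fun k => ?_
    have p1 := (Dq_pos h (k + j)).ne'
    have p2 := (Dq_pos h (k + j + 1)).ne'
    have e : k + (j + 1) = k + j + 1 := by ring
    rw [e]
    field_simp
    ring

/-- normalised distances -/
noncomputable def xx (s : ℕ → ℝ) (d k j : ℕ) : ℝ :=
  if j ≤ k then (Dq s d (k - j) : ℝ) / Dq s d k else 0

theorem Dq_th (h : Hyp s d q) (i j : ℕ) : (Dq s d i : ℝ) ≤ th q ^ j * Dq s d (i + j) := by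
  induction j with
  | zero => simp
  | succ j ih =>
    have h1 := (Dq_growth h (i + j)).2
    have h2 : th q ^ j * (Dq s d (i + j) : ℝ) ≤ th q ^ j * (th q * Dq s d (i + j + 1)) :=
      mul_le_mul_of_nonneg_left h1 (pow_nonneg (th_pos h).le _)
    calc (Dq s d i : ℝ) ≤ _ := ih
      _ ≤ _ := h2
      _ = _ := by rw [show i + (j + 1) = i + j + 1 by ring]; ring

theorem xx_bd (h : Hyp s d q) (k j : ℕ) : 0 ≤ xx s d k j ∧ xx s d k j ≤ th q ^ j := by
  have hp := Dq_pos h k
  unfold xx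
  split_ifs with hj
  · refine ⟨by positivity, ?_⟩
    rw [div_le_iff₀ hp]
    have := Dq_th h (k - j) j
    rwa [Nat.sub_add_cancel hj] at this
  · exact ⟨le_refl _, pow_nonneg (th_pos h).le _⟩

theorem diff_bd (h : Hyp s d q) (k j : ℕ) : |xx s d k j - s k ^ j| ≤ 2 * th q ^ j := by
  have h1 := xx_bd h k j
  have h2 : 0 ≤ s k ^ j := pow_nonneg (h.pos k).le _
  have h3 : s k ^ j ≤ th q ^ j := pow_le_pow_left₀ (h.pos k).le ((h.le k).trans (q_le_th h)) _
  rw [abs_le]
  constructor <;> linarith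

theorem summable_th (h : Hyp s d q) : Summable fun j : ℕ => 2 * th q ^ j :=
  (summable_geometric_of_lt_one (th_pos h).le (th_lt h)).mul_left 2

theorem summable_diff (h : Hyp s d q) (k : ℕ) : Summable fun j => |xx s d k j - s k ^ j| :=
  Summable.of_nonneg_of_le (fun _ => abs_nonneg _) (diff_bd h k) (summable_th h)

noncomputable def er (s : ℕ → ℝ) (d k : ℕ) : ℝ := ∑' j, |xx s d k j - s k ^ j|

theorem er_lim (h : Hyp s d q) : Tendsto (er s d) atTop (𝓝 0) := by
  have key := tendsto_tsum_of_dominated_convergence (𝓕 := atTop)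
    (f := fun k j => |xx s d k j - s k ^ j|) (g := fun _ => (0 : ℝ))
    (bound := fun j => 2 * th q ^ j) (summable_th h) ?_ ?_
  · change Tendsto (fun k => ∑' j, |xx s d k j - s k ^ j|) atTop (𝓝 0)
    simpa using key
  · intro j
    have h1 : Tendsto (fun k => xx s d k j - s k ^ j) atTop (𝓝 0) := by
      rw [← tendsto_add_atTop_iff_nat j]
      refine (prod_lim h j).congr fun k => ?_
      unfold xx
      rw [if_pos (Nat.le_add_left j k), Nat.add_sub_cancel]
    simpa using h1.abs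
  · exact Eventually.of_forall fun k j => by
      rw [Real.norm_eq_abs, abs_abs]; exact diff_bd h k j

theorem main_sum (h : Hyp s d q) {n k : ℕ} (hn : Dq s d k ≤ n) :
    HasSum (fun j => min (xx s d k (j + 1)) ((n : ℝ) / Dq s d k - xx s d k j))
      (((∑ i ∈ Finset.range k, min (Dq s d i) (n - Dq s d (i + 1)) : ℕ) : ℝ) / Dq s d k) := by
  have hp := Dq_pos h k
  have hn' : (Dq s d k : ℝ) ≤ n := by exact_mod_cast hn
  have ht : 1 ≤ (n : ℝ) / Dq s d k := by rwa [one_le_div hp]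
  have e : ((∑ i ∈ Finset.range k, min (Dq s d i) (n - Dq s d (i + 1)) : ℕ) : ℝ) / Dq s d k =
      ∑ j ∈ Finset.range k, min (xx s d k (j + 1)) ((n : ℝ) / Dq s d k - xx s d k j) := by
    rw [← Finset.sum_range_reflect]
    push_cast
    rw [Finset.sum_div]
    apply Finset.sum_congr rfl
    intro j hj
    rw [Finset.mem_range] at hj
    have e1 : k - 1 - j = k - (j + 1) := by omega
    have e2 : k - 1 - j + 1 = k - j := by omega
    rw [e2, e1]
    have h3 : Dq s d (k - j) ≤ n := ((Dq_mono h).monotone (by omega)).trans hn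
    rw [Nat.cast_sub h3]
    unfold xx
    rw [if_pos (by omega), if_pos (by omega), ← sub_div, min_div_div_right hp.le]
  rw [e]
  apply hasSum_sum_of_ne_finset_zero
  intro j hj
  rw [Finset.mem_range, not_lt] at hj
  have h1 : xx s d k (j + 1) = 0 := by unfold xx; rw [if_neg (by omega)]
  have h2 : xx s d k j ≤ 1 := (xx_bd h k j).2.trans (pow_le_one₀ (th_pos h).le (th_lt h).le)
  rw [h1]
  exact min_eq_left (by linarith)

theorem est (h : Hyp s d q) {n k m : ℕ} (hv : Val m (s k)) (hn : Dq s d k ≤ n)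
    (hn' : n ≤ Dq s d (k + 1)) :
    |(cpx (wd (Dq s d)) n : ℝ) / n - Psi m (s k) ((n : ℝ) / Dq s d k)| ≤
      2 * er s d k + 2 * (1 / Dq s d k) := by
  have hp := Dq_pos h k
  have hnp : (Dq s d k : ℝ) ≤ n := by exact_mod_cast hn
  have hn0 : (0 : ℝ) < n := by linarith
  set t := (n : ℝ) / Dq s d k with ht
  have ht1 : 1 ≤ t := by rw [ht]; rwa [one_le_div hp]
  have ht0 : 0 < t := by linarith
  have ht2 : t ≤ 1 / s k := by
    have h1 := Dq_up h k
    have h2 : (n : ℝ) ≤ Dq s d (k + 1) := by exact_mod_cast hn'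
    rw [ht, div_le_iff₀ hp]
    calc (n : ℝ) ≤ _ := h2
      _ ≤ _ := h1
      _ = _ := by ring
  have hs1 : s k < 1 := lt_of_le_of_lt (h.le k) h.lt
  have A1 := main_sum h hn
  have A2 := tsum_eq (h.pos k) hs1 hv ht1 ht2
  rw [← ht] at A1
  set S : ℕ := ∑ i ∈ Finset.range k, min (Dq s d i) (n - Dq s d (i + 1)) with hS
  have hsd := summable_diff h k
  have hsd1 : Summable fun j => |xx s d k (j + 1) - s k ^ (j + 1)| :=
    (summable_nat_add_iff 1).2 hsd
  have hb : ∀ j, |min (xx s d k (j + 1)) (t - xx s d k j) - min (s k ^ (j + 1)) (t - s k ^ j)| ≤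
      |xx s d k (j + 1) - s k ^ (j + 1)| + |xx s d k j - s k ^ j| := by
    intro j
    refine (abs_min_sub_min_le_max _ _ _ _).trans ?_
    have e : |t - xx s d k j - (t - s k ^ j)| = |xx s d k j - s k ^ j| := by
      rw [show t - xx s d k j - (t - s k ^ j) = -(xx s d k j - s k ^ j) by ring, abs_neg]
    rw [e]
    exact max_le (le_add_of_nonneg_right (abs_nonneg _)) (le_add_of_nonneg_left (abs_nonneg _))
  have key : |(S : ℝ) / Dq s d k - (Psi m (s k) t - 1) * t| ≤ 2 * er s d k := by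
    have h1 := A1.sub A2
    rw [← h1.tsum_eq]
    have hsum : Summable fun j => |min (xx s d k (j + 1)) (t - xx s d k j) -
        min (s k ^ (j + 1)) (t - s k ^ j)| :=
      Summable.of_nonneg_of_le (fun _ => abs_nonneg _) hb (hsd1.add hsd)
    have h2 := norm_tsum_le_tsum_norm (f := fun j => min (xx s d k (j + 1)) (t - xx s d k j) -
        min (s k ^ (j + 1)) (t - s k ^ j)) hsum
    simp only [Real.norm_eq_abs] at h2
    refine h2.trans ((hsum.tsum_le_tsum hb (hsd1.add hsd)).trans ?_)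
    rw [Summable.tsum_add hsd1 hsd]
    have h3 : ∑' j, |xx s d k (j + 1) - s k ^ (j + 1)| ≤ er s d k := by
      have := hsd.tsum_eq_zero_add
      unfold er
      rw [this]
      linarith [abs_nonneg (xx s d k 0 - s k ^ 0)]
    have h4 : ∑' j, |xx s d k j - s k ^ j| = er s d k := rfl
    linarith
  have hcpx := cpx_formula (D := Dq s d) h.dpos (Dq_mono h) hn'
  rw [hcpx]
  set δ : ℕ := if Dq s d 0 < n then 1 else 0 with hδ
  have hδ1 : (δ : ℝ) ≤ 1 := by
    rw [hδ]; split_ifs <;> simp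
  have hδ0 : (0 : ℝ) ≤ δ := Nat.cast_nonneg _
  push_cast [← hS]
  have e1 : (1 + (n : ℝ) + (δ + S)) / n - Psi m (s k) t =
      ((S : ℝ) / Dq s d k - (Psi m (s k) t - 1) * t) / t + (1 + δ) / n := by
    have : (S : ℝ) / n = (S : ℝ) / Dq s d k / t := by
      rw [ht]; field_simp
    field_simp at this ⊢
    rw [ht]
    field_simp
    ring
  rw [e1]
  refine (abs_add_le _ _).trans (add_le_add ?_ ?_)
  · rw [abs_div, abs_of_pos ht0]
    exact (div_le_self (abs_nonneg _) ht1).trans key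
  · rw [abs_of_nonneg (by positivity)]
    calc (1 + (δ : ℝ)) / n ≤ 2 / n := div_le_div_of_nonneg_right (by linarith) hn0.le
      _ ≤ 2 / Dq s d k := div_le_div_of_nonneg_left (by norm_num) hp hnp
      _ = _ := by ring

end Pool.Agent.Helper119.LC
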