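import Pool.Agent.Helper119.LC.Asym

open Filter Topology

namespace Pool.Agent.Helper119.LC

variable {s : ℕ → ℝ} {d : ℕ} {q : ℝ}

theorem exists_block (h : Hyp s d q) {n K : ℕ} (hn : Dq s d K ≤ n) :
    ∃ k, K ≤ k ∧ Dq s d k ≤ n ∧ n ≤ Dq s d (k + 1) := by
  classical
  have hmono := Dq_mono h
  have hex : ∃ k, n < Dq s d k := ⟨n + 1, lt_of_lt_of_le (Nat.lt_succ_self n) (D_ge hmono _)⟩
  have h1 := Nat.find_spec hex
  have h2 : Nat.find hex ≠ 0 := by
    intro h0
    rw [h0] at h1
    have : Dq s d 0 ≤ Dq s d K := hmono.monotone (Nat.zero_le K)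
    omega
  obtain ⟨k, hk⟩ := Nat.exists_eq_succ_of_ne_zero h2
  have h3 := Nat.find_min hex (m := k) (by omega)
  push Not at h3
  refine ⟨k, ?_, h3, ?_⟩
  · by_contra hlt
    push Not at hlt
    rw [hk] at h1
    have : Dq s d (k + 1) ≤ Dq s d K := hmono.monotone hlt
    simp only [Nat.succ_eq_add_one] at h1
    omega
  · rw [hk] at h1
    exact h1.le

noncomputable def EE (s : ℕ → ℝ) (d k : ℕ) : ℝ := 2 * er s d k + 2 * (1 / Dq s d k)

theorem EE_lim (h : Hyp s d q) : Tendsto (EE s d) atTop (𝓝 0) := by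
  have := ((er_lim h).const_mul 2).add ((inv_D_tendsto h).const_mul 2)
  rw [mul_zero, add_zero] at this
  exact this

theorem core (h : Hyp s d q) {m : ℕ → ℕ} (hm : ∀ k, Val (m k) (s k)) {a b : ℝ}
    (h1 : ∀ ε > 0, ∀ᶠ k in atTop, a - ε ≤ cA (m k) (s k))
    (h2 : ∀ ε > 0, ∃ᶠ k in atTop, cA (m k) (s k) ≤ a + ε)
    (h3 : ∀ ε > 0, ∀ᶠ k in atTop, cB (m k) (s k) ≤ b + ε)
    (h4 : ∀ ε > 0, ∃ᶠ k in atTop, b - ε ≤ cB (m k) (s k)) : (a, b) ∈ LS := by
  set u := wd (Dq s d) with hu
  set f : ℕ → ℝ := fun n => (cpx u n : ℝ) / n with hf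
  have hs1 : ∀ k, s k < 1 := fun k => lt_of_le_of_lt (h.le k) h.lt
  have hEE := EE_lim h
  have hEs : ∀ ε > 0, ∀ᶠ k in atTop, EE s d k ≤ ε := by
    intro ε hε
    filter_upwards [hEE.eventually (Iio_mem_nhds hε)] with k hk
    exact le_of_lt hk
  have hest : ∀ k n, Dq s d k ≤ n → n ≤ Dq s d (k + 1) →
      cA (m k) (s k) - EE s d k ≤ f n ∧ f n ≤ cB (m k) (s k) + EE s d k ∧
      Psi (m k) (s k) ((n : ℝ) / Dq s d k) - EE s d k ≤ f n ∧
      f n ≤ Psi (m k) (s k) ((n : ℝ) / Dq s d k) + EE s d k := by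
    intro k n hn hn'
    have hp := Dq_pos h k
    have e := abs_le.1 (est h (hm k) hn hn')
    have hnp : (Dq s d k : ℝ) ≤ n := by exact_mod_cast hn
    have ht1 : 1 ≤ (n : ℝ) / Dq s d k := by rwa [one_le_div hp]
    have ht2 : (n : ℝ) / Dq s d k ≤ 1 / s k := by
      have h1 := Dq_up h k
      have h2 : (n : ℝ) ≤ Dq s d (k + 1) := by exact_mod_cast hn'
      rw [div_le_iff₀ hp]
      calc (n : ℝ) ≤ _ := h2
        _ ≤ _ := h1
        _ = _ := by ring
    have p1 := le_Psi (h.pos k) (hs1 k) (hm k) ht1 ht2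
    have p2 := Psi_le (h.pos k) (hs1 k) (hm k) ht1
    have e1 := e.1
    have e2 := e.2
    unfold EE
    exact ⟨by linarith, by linarith, by linarith, by linarith⟩
  -- eventual bounds
  have E1 : ∀ ε > 0, ∀ᶠ n in atTop, a - ε ≤ f n := by
    intro ε hε
    obtain ⟨K, hK⟩ := eventually_atTop.1 ((h1 (ε / 2) (by linarith)).and (hEs (ε / 2) (by linarith)))
    filter_upwards [eventually_ge_atTop (Dq s d K)] with n hn
    obtain ⟨k, hk, k1, k2⟩ := exists_block h hn
    have := (hest k n k1 k2).1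
    have := (hK k hk).1
    have := (hK k hk).2
    linarith
  have E3 : ∀ ε > 0, ∀ᶠ n in atTop, f n ≤ b + ε := by
    intro ε hε
    obtain ⟨K, hK⟩ := eventually_atTop.1 ((h3 (ε / 2) (by linarith)).and (hEs (ε / 2) (by linarith)))
    filter_upwards [eventually_ge_atTop (Dq s d K)] with n hn
    obtain ⟨k, hk, k1, k2⟩ := exists_block h hn
    have := (hest k n k1 k2).2.1
    have := (hK k hk).1
    have := (hK k hk).2
    linarith
  have E2 : ∀ ε > 0, ∃ᶠ n in atTop, f n ≤ a + ε := by
    intro ε hε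
    have hfr : ∃ᶠ k in atTop, f (Dq s d k) ≤ a + ε := by
      refine ((h2 (ε / 2) (by linarith)).and_eventually (hEs (ε / 2) (by linarith))).mono ?_
      rintro k ⟨k1, k2⟩
      have hp := Dq_pos h k
      have e := (hest k (Dq s d k) le_rfl ((Dq_mono h).monotone (Nat.le_succ k))).2.2.2
      rw [div_self hp.ne'] at e
      have := Psi_one (m := m k) (hs1 k)
      linarith
    exact (Dq_tendsto h).frequently hfr
  have E4 : ∀ ε > 0, ∃ᶠ n in atTop, b - ε ≤ f n := by
    intro ε hε
    set c : ℕ → ℝ := fun k => s k ^ m k * (1 + s k) with hc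
    set nk : ℕ → ℕ := fun k => min ⌈c k * Dq s d k⌉₊ (Dq s d (k + 1)) with hnk
    have hc1 : ∀ k, 1 ≤ c k := by
      intro k
      have := (hm k).2
      rw [pow_succ] at this
      simp only [hc]; linarith
    have hc2 : ∀ k, c k ≤ 1 / s k := by
      intro k
      have h5 := (hm k).1
      have h6 := h.pos k
      rw [le_div_iff₀ h6]
      have : c k * s k = s k ^ (m k + 2) + s k ^ (m k + 1) := by simp only [hc]; ring
      linarith
    have hn1 : ∀ k, Dq s d k ≤ nk k := by
      intro k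
      apply le_min
      · have h5 : (Dq s d k : ℝ) ≤ c k * Dq s d k := by
          have := mul_le_mul_of_nonneg_right (hc1 k) (Dq_pos h k).le
          linarith
        exact_mod_cast h5.trans (Nat.le_ceil _)
      · exact (Dq_mono h).monotone (Nat.le_succ k)
    have hn2 : ∀ k, nk k ≤ Dq s d (k + 1) := fun k => min_le_right _ _
    have hdist : ∀ k, |(nk k : ℝ) / Dq s d k - c k| ≤ 1 / Dq s d k := by
      intro k
      have hp := Dq_pos h k
      have u1 : (nk k : ℝ) ≤ c k * Dq s d k + 1 := by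
        have h5 : (nk k : ℝ) ≤ (⌈c k * Dq s d k⌉₊ : ℝ) := by
          exact_mod_cast min_le_left _ _
        have h6 := Nat.ceil_lt_add_one (a := c k * Dq s d k)
          (mul_nonneg (by linarith [hc1 k]) hp.le)
        linarith
      have u2 : c k * Dq s d k - 1 ≤ (nk k : ℝ) := by
        simp only [hnk]
        push_cast
        apply le_min
        · have := Nat.le_ceil (c k * (Dq s d k : ℝ))
          linarith
        · have h5 := Dq_lo h k
          have h6 := mul_le_mul_of_nonneg_right (hc2 k) hp.le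
          have h7 : 1 / s k * (Dq s d k : ℝ) = Dq s d k / s k := by ring
          linarith
      rw [abs_le]
      constructor
      · rw [neg_le_sub_iff_le_add, ← add_div, le_div_iff₀ hp]
        linarith
      · rw [sub_le_iff_le_add, div_le_iff₀ hp, add_mul, div_mul_cancel₀ _ hp.ne']
        linarith
    have hinv : ∀ᶠ k in atTop, 1 / (Dq s d k : ℝ) ≤ ε / 8 := by
      filter_upwards [(inv_D_tendsto h).eventually (Iio_mem_nhds (show (0 : ℝ) < ε / 8 by linarith))]
        with k hk
      exact le_of_lt hk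
    have hfr : ∃ᶠ k in atTop, b - ε ≤ f (nk k) := by
      refine ((h4 (ε / 4) (by linarith)).and_eventually
        ((hEs (ε / 4) (by linarith)).and hinv)).mono ?_
      rintro k ⟨k1, k2, k3⟩
      have hp := Dq_pos h k
      have hnp : (Dq s d k : ℝ) ≤ nk k := by exact_mod_cast hn1 k
      have ht1 : 1 ≤ (nk k : ℝ) / Dq s d k := by rwa [one_le_div hp]
      have e := (hest k (nk k) (hn1 k) (hn2 k)).2.2.1
      have e2 := Psi_near (h.pos k) (hs1 k) (hm k) ht1
      have e3 := hdist k
      simp only [hc] at e3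
      linarith
    have hnt : Tendsto nk atTop atTop := tendsto_atTop_mono hn1 (Dq_tendsto h)
    exact hnt.frequently hfr
  have hbA : IsBoundedUnder (· ≤ ·) atTop f := ⟨b + 1, E3 1 one_pos⟩
  have hbB : IsBoundedUnder (· ≥ ·) atTop f := ⟨a - 1, E1 1 one_pos⟩
  refine ⟨2, u, ?_, ?_, ?_⟩
  · obtain ⟨N, hN⟩ := eventually_atTop.1 (E3 1 one_pos)
    refine ⟨⌈b + 1⌉₊ + ∑ i ∈ Finset.range N, cpx u i, fun n hn => ?_⟩
    have hn0 : (0 : ℝ) < n := by exact_mod_cast hn
    rcases le_or_gt N n with hle | hlt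
    · have h5 := hN n hle
      simp only [hf] at h5
      rw [div_le_iff₀ hn0] at h5
      have h6 : (cpx u n : ℝ) ≤ (⌈b + 1⌉₊ * n : ℕ) := by
        push_cast
        exact h5.trans (mul_le_mul_of_nonneg_right (Nat.le_ceil _) hn0.le)
      have h7 : cpx u n ≤ ⌈b + 1⌉₊ * n := by exact_mod_cast h6
      rw [add_mul]
      omega
    · have h5 : cpx u n ≤ ∑ i ∈ Finset.range N, cpx u i :=
        Finset.single_le_sum (f := fun i => cpx u i) (fun _ _ => Nat.zero_le _)
          (Finset.mem_range.2 hlt)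
      have h6 : (∑ i ∈ Finset.range N, cpx u i) * 1 ≤ (∑ i ∈ Finset.range N, cpx u i) * n :=
        Nat.mul_le_mul_left _ hn
      rw [add_mul]
      omega
  · apply le_antisymm
    · apply le_of_forall_pos_le_add
      intro ε hε
      exact liminf_le_of_frequently_le (E2 ε hε) hbB
    · apply le_of_forall_pos_sub_le
      intro ε hε
      exact le_liminf_of_le hbA.isCoboundedUnder_ge (E1 ε hε)
  · apply le_antisymm
    · apply le_of_forall_pos_le_add
      intro ε hε
      exact limsup_le_of_le hbB.isCoboundedUnder_le (E3 ε hε)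
    · apply le_of_forall_pos_sub_le
      intro ε hε
      exact le_limsup_of_frequently_le (E4 ε hε) hbA

/-- Oscillating weights. -/
noncomputable def ww (k : ℕ) : ℝ := (1 - Real.cos (Real.pi * √k)) / 2

theorem ww_bd (k : ℕ) : 0 ≤ ww k ∧ ww k ≤ 1 := by
  have h1 := Real.cos_le_one (Real.pi * √k)
  have h2 := Real.neg_one_le_cos (Real.pi * √k)
  unfold ww
  constructor <;> linarith

theorem sqrt_lim : Tendsto (fun k : ℕ => √((k + 1 : ℕ) : ℝ) - √(k : ℝ)) atTop (𝓝 0) := by
  have h1 : Tendsto (fun k : ℕ => 1 / √((k : ℝ) + 1)) atTop (𝓝 0) := by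
    have : Tendsto (fun k : ℕ => √((k : ℝ) + 1)) atTop atTop :=
      Real.tendsto_sqrt_atTop.comp (tendsto_atTop_add_const_right _ _ tendsto_natCast_atTop_atTop)
    have h := tendsto_inv_atTop_zero.comp this
    simpa only [one_div, Function.comp_def] using h
  refine squeeze_zero (fun k => ?_) (fun k => ?_) h1
  · have : √(k : ℝ) ≤ √((k + 1 : ℕ) : ℝ) := Real.sqrt_le_sqrt (by push_cast; linarith)
    linarith
  · have hk : (0 : ℝ) ≤ k := Nat.cast_nonneg k
    have a1 : √((k : ℝ) + 1) ^ 2 = k + 1 := Real.sq_sqrt (by linarith)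
    have a2 : √(k : ℝ) ^ 2 = k := Real.sq_sqrt hk
    have a3 : 0 < √((k : ℝ) + 1) := Real.sqrt_pos.2 (by linarith)
    have a4 := Real.sqrt_nonneg (k : ℝ)
    have a5 : √(k : ℝ) ≤ √((k : ℝ) + 1) := Real.sqrt_le_sqrt (by linarith)
    push_cast
    rw [le_div_iff₀ a3]
    nlinarith

theorem ww_slow : Tendsto (fun k => ww (k + 1) - ww k) atTop (𝓝 0) := by
  have h1 : Tendsto (fun k : ℕ => Real.pi / 2 * (√((k + 1 : ℕ) : ℝ) - √(k : ℝ))) atTop (𝓝 0) := by
    simpa using sqrt_lim.const_mul (Real.pi / 2)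
  refine squeeze_zero_norm (fun k => ?_) h1
  have h2 := Real.abs_cos_sub_cos_le (Real.pi * √(k : ℝ)) (Real.pi * √((k + 1 : ℕ) : ℝ))
  have h3 : √(k : ℝ) ≤ √((k + 1 : ℕ) : ℝ) := Real.sqrt_le_sqrt (by push_cast; linarith)
  have h4 : |Real.pi * √(k : ℝ) - Real.pi * √((k + 1 : ℕ) : ℝ)| =
      Real.pi * (√((k + 1 : ℕ) : ℝ) - √(k : ℝ)) := by
    rw [← mul_sub, abs_mul, abs_of_pos Real.pi_pos, abs_sub_comm, abs_of_nonneg (by linarith)]
  rw [h4] at h2
  have e : ww (k + 1) - ww k = (Real.cos (Real.pi * √(k : ℝ)) -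
      Real.cos (Real.pi * √((k + 1 : ℕ) : ℝ))) / 2 := by
    unfold ww; ring
  rw [e, Real.norm_eq_abs, abs_div, abs_of_pos (by norm_num : (0 : ℝ) < 2)]
  linarith

theorem ww_sq (N : ℕ) : ww (N ^ 2) = (1 - (-1) ^ N) / 2 := by
  unfold ww
  push_cast
  rw [Real.sqrt_sq (Nat.cast_nonneg N), mul_comm, Real.cos_nat_mul_pi]

theorem ww_zero : ∃ᶠ k in atTop, ww k = 0 := by
  rw [frequently_atTop]
  intro K
  refine ⟨(2 * K) ^ 2, ?_, ?_⟩
  · nlinarith
  · rw [ww_sq]; simp

theorem ww_one : ∃ᶠ k in atTop, ww k = 1 := by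
  rw [frequently_atTop]
  intro K
  refine ⟨(2 * K + 1) ^ 2, ?_, ?_⟩
  · nlinarith
  · rw [ww_sq, pow_succ, pow_mul]; norm_num

noncomputable def ss (x y : ℝ) (k : ℕ) : ℝ := max (x + (y - x) * ww k) (1 / ((k : ℝ) + 2))

theorem inv2_lim : Tendsto (fun k : ℕ => 1 / ((k : ℝ) + 2)) atTop (𝓝 0) := by
  have h : Tendsto (fun k : ℕ => (k : ℝ) + 2) atTop atTop :=
    tendsto_atTop_add_const_right _ _ tendsto_natCast_atTop_atTop
  simpa only [one_div, Function.comp_def] using tendsto_inv_atTop_zero.comp h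

theorem ss_slow (x y : ℝ) : Tendsto (fun k => ss x y (k + 1) - ss x y k) atTop (𝓝 0) := by
  have h1 : Tendsto (fun k => |(y - x) * (ww (k + 1) - ww k)|) atTop (𝓝 0) := by
    simpa using (ww_slow.const_mul (y - x)).abs
  have h2 : Tendsto (fun k : ℕ => |1 / (((k + 1 : ℕ) : ℝ) + 2) - 1 / ((k : ℝ) + 2)|) atTop (𝓝 0) := by
    have h3 : Tendsto (fun k : ℕ => 1 / ((k : ℝ) + 2)) atTop (𝓝 0) := inv2_lim
    have h4 : Tendsto (fun k : ℕ => 1 / (((k + 1 : ℕ) : ℝ) + 2)) atTop (𝓝 0) :=
      (tendsto_add_atTop_iff_nat (f := fun k : ℕ => 1 / ((k : ℝ) + 2)) 1).2 h3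
    simpa using (h4.sub h3).abs
  have h5 := h1.add h2
  rw [add_zero] at h5
  refine squeeze_zero_norm (fun k => ?_) h5
  rw [Real.norm_eq_abs]
  unfold ss
  refine (abs_max_sub_max_le_max _ _ _ _).trans (max_le ?_ ?_)
  · have e : x + (y - x) * ww (k + 1) - (x + (y - x) * ww k) = (y - x) * (ww (k + 1) - ww k) := by
      ring
    rw [e]
    exact le_add_of_nonneg_right (abs_nonneg _)
  · exact le_add_of_nonneg_left (abs_nonneg _)

theorem inv_le_ev {x : ℝ} (hx : 0 < x) : ∀ᶠ k : ℕ in atTop, 1 / ((k : ℝ) + 2) ≤ x := by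
  have h3 : Tendsto (fun k : ℕ => 1 / ((k : ℝ) + 2)) atTop (𝓝 0) := inv2_lim
  filter_upwards [h3.eventually (Iio_mem_nhds hx)] with k hk
  exact le_of_lt hk

theorem val0 {s : ℝ} (h0 : 0 ≤ s) (h1 : s ≤ 1 / 2) : Val 0 s := by
  constructor
  · simp; nlinarith
  · simp; linarith

/-- All pairs `(A(x), B(y))` with `0 ≤ x ≤ y < 1` are in `LS`. -/
theorem mem_LS {x y : ℝ} {m k : ℕ} (hx : 0 ≤ x) (hxy : x ≤ y) (hy : y < 1) (hm : Val m x)
    (hk : Val k y) : (cA m x, cB k y) ∈ LS := by
  classical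
  set q := max y (1 / 2) with hq
  have hq1 : q < 1 := max_lt hy (by norm_num)
  have hss0 : ∀ i, 0 < ss x y i := fun i => lt_of_lt_of_le (by positivity) (le_max_right _ _)
  have hsx : ∀ i, x ≤ ss x y i := by
    intro i
    refine le_trans ?_ (le_max_left _ _)
    have := mul_nonneg (sub_nonneg.2 hxy) (ww_bd i).1
    linarith
  have hsy' : ∀ i, x + (y - x) * ww i ≤ y := by
    intro i
    have := mul_le_mul_of_nonneg_left (ww_bd i).2 (sub_nonneg.2 hxy)
    linarith
  have hsq : ∀ i, ss x y i ≤ q := by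
    intro i
    apply max_le
    · exact (hsy' i).trans (le_max_left _ _)
    · refine le_trans ?_ (le_max_right _ _)
      apply one_div_le_one_div_of_le (by norm_num)
      have : (0 : ℝ) ≤ i := Nat.cast_nonneg i
      linarith
  have hs1 : ∀ i, ss x y i < 1 := fun i => lt_of_le_of_lt (hsq i) hq1
  obtain ⟨d, hd⟩ := exists_nat_ge (2 * q / (1 - q))
  have H : Hyp (ss x y) (d + 1) q :=
    { pos := hss0
      le := hsq
      lt := hq1
      slow := ss_slow x y
      dpos := Nat.succ_pos d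
      dbig := by push_cast; linarith }
  choose μ hμ using fun i => exists_val (hss0 i).le (hs1 i)
  refine core H hμ ?_ ?_ ?_ ?_
  · intro ε hε
    refine Eventually.of_forall fun i => ?_
    have := cA_mono hx (hsx i) (hs1 i) hm (hμ i)
    linarith
  · intro ε hε
    rcases hx.lt_or_eq with hx0 | hx0
    · refine (ww_zero.and_eventually (inv_le_ev hx0)).mono ?_
      rintro i ⟨i1, i2⟩
      have e : ss x y i = x := by
        unfold ss
        rw [i1, mul_zero, add_zero]
        exact max_eq_left i2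
      have := cA_mono (hss0 i).le e.le (lt_of_le_of_lt hxy hy) (hμ i) hm
      linarith
    · subst hx0
      have hm0 := val_zero hm
      subst hm0
      have hlim : Tendsto (fun i : ℕ => cA 0 (1 / ((i : ℝ) + 2))) atTop (𝓝 (cA 0 0)) := by
        have h3 : Tendsto (fun k : ℕ => 1 / ((k : ℝ) + 2)) atTop (𝓝 0) := inv2_lim
        have hc : ContinuousAt (cA 0) 0 := by
          unfold cA
          refine ContinuousAt.add continuousAt_const (ContinuousAt.div ?_ ?_ (by norm_num))
          · fun_prop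
          · fun_prop
        exact hc.tendsto.comp h3
      have hev : ∀ᶠ i : ℕ in atTop, cA 0 (1 / ((i : ℝ) + 2)) < cA 0 0 + ε :=
        hlim.eventually (Iio_mem_nhds (by linarith))
      refine (ww_zero.and_eventually hev).mono ?_
      rintro i ⟨i1, i2⟩
      have e : ss 0 y i = 1 / ((i : ℝ) + 2) := by
        unfold ss
        rw [i1, mul_zero, add_zero]
        exact max_eq_right (by positivity)
      have hv0 : Val 0 (1 / ((i : ℝ) + 2)) := by
        apply val0 (by positivity)
        apply one_div_le_one_div_of_le (by norm_num)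
        have : (0 : ℝ) ≤ i := Nat.cast_nonneg i
        linarith
      have h5 := cA_mono (hss0 i).le e.le (by rw [← e]; exact hs1 i) (hμ i) hv0
      linarith
  · intro ε hε
    rcases (hx.trans hxy).lt_or_eq with hy0 | hy0
    · filter_upwards [inv_le_ev hy0] with i hi
      have e : ss x y i ≤ y := max_le (hsy' i) hi
      have := cB_mono (hss0 i) e hy (hμ i) hk
      linarith
    · have hx0 : x = 0 := le_antisymm (hxy.trans hy0.symm.le) hx
      subst hy0
      have hk0 := val_zero hk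
      subst hk0
      have hlim : Tendsto (fun i : ℕ => cB 0 (1 / ((i : ℝ) + 2))) atTop (𝓝 (cB 0 0)) := by
        have h3 : Tendsto (fun k : ℕ => 1 / ((k : ℝ) + 2)) atTop (𝓝 0) := inv2_lim
        have hc : ContinuousAt (cB 0) 0 := by
          unfold cB
          refine ContinuousAt.add continuousAt_const (ContinuousAt.div ?_ ?_ (by norm_num))
          · fun_prop
          · fun_prop
        exact hc.tendsto.comp h3
      have hev : ∀ᶠ i : ℕ in atTop, cB 0 (1 / ((i : ℝ) + 2)) < cB 0 0 + ε :=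
        hlim.eventually (Iio_mem_nhds (by linarith))
      filter_upwards [hev] with i hi
      have e : ss x 0 i = 1 / ((i : ℝ) + 2) := by
        unfold ss
        rw [hx0]
        simp only [sub_zero, zero_mul, add_zero]
        exact max_eq_right (by positivity)
      have hv0 : Val 0 (1 / ((i : ℝ) + 2)) := by
        apply val0 (by positivity)
        apply one_div_le_one_div_of_le (by norm_num)
        have : (0 : ℝ) ≤ i := Nat.cast_nonneg i
        linarith
      have h5 := cB_mono (hss0 i) e.le (by rw [← e]; exact hs1 i) (hμ i) hv0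
      linarith
  · intro ε hε
    rcases (hx.trans hxy).lt_or_eq with hy0 | hy0
    · refine ww_one.mono ?_
      intro i i1
      have e : y ≤ ss x y i := by
        refine le_trans ?_ (le_max_left _ _)
        rw [i1]; linarith
      have := cB_mono hy0 e (hs1 i) hk (hμ i)
      linarith
    · subst hy0
      have hk0 := val_zero hk
      subst hk0
      refine (Eventually.of_forall fun i => ?_).frequently
      have h5 := (cB_bds (hss0 i) (hs1 i) (hμ i)).1
      have h6 : cB 0 0 = 1 := by unfold cB; simp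
      have h7 : (0 : ℝ) ≤ μ i := Nat.cast_nonneg _
      rw [h6]
      linarith

end Pool.Agent.Helper119.LC
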