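import Pool.Agent.Helper119.LC.Defs

open Filter

namespace Pool.Agent.Helper119.LC

/-- Positions of the ones. -/
def X (D : ℕ → ℕ) : ℕ → ℕ
  | 0 => 0
  | i + 1 => X D i + D i

open Classical in
/-- The word with ones at the positions `X D i`. -/
noncomputable def wd (D : ℕ → ℕ) (x : ℕ) : Fin 2 := if ∃ i, X D i = x then 1 else 0

variable {D : ℕ → ℕ}

theorem X_strictMono (h0 : 0 < D 0) (hD : StrictMono D) : StrictMono (X D) := by
  apply strictMono_nat_of_lt_succ
  intro i
  have : D 0 ≤ D i := hD.monotone (Nat.zero_le i)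
  simp only [X]
  omega

theorem X_succ (i : ℕ) : X D (i + 1) = X D i + D i := rfl

theorem wd_one {x : ℕ} : wd D x = 1 ↔ ∃ i, X D i = x := by
  unfold wd
  split_ifs with h
  · exact ⟨fun _ => h, fun _ => rfl⟩
  · exact ⟨fun h' => absurd h' (by decide), fun h' => absurd h' h⟩

theorem wd_zero {x : ℕ} : wd D x = 0 ↔ ¬ ∃ i, X D i = x := by
  unfold wd
  split_ifs with h
  · exact ⟨fun h' => absurd h' (by decide), fun h' => absurd h h'⟩
  · exact ⟨fun _ => h, fun _ => rfl⟩

theorem fin2 (y : Fin 2) : y = 0 ∨ y = 1 := by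
  fin_cases y <;> simp

/-- The window starting at `s` contains two ones. -/
def PP (D : ℕ → ℕ) (n s : ℕ) : Prop := ∃ i, s ≤ X D i ∧ X D (i + 1) < s + n

noncomputable def fac (D : ℕ → ℕ) (n s : ℕ) : Fin n → Fin 2 := fun j => wd D (s + j)

theorem first_one (h0 : 0 < D 0) (hD : StrictMono D) {n s : ℕ} (h : PP D n s) :
    ∃ i, s ≤ X D i ∧ X D (i + 1) < s + n ∧ ∀ y, s ≤ y → y < X D i → wd D y = 0 := by
  classical
  have hX := X_strictMono h0 hD
  obtain ⟨i', h1, h2⟩ := h
  have hex : ∃ i, s ≤ X D i := ⟨i', h1⟩
  refine ⟨Nat.find hex, Nat.find_spec hex, ?_, ?_⟩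
  · have : Nat.find hex ≤ i' := Nat.find_min' hex h1
    exact lt_of_le_of_lt (hX.monotone (Nat.succ_le_succ this)) h2
  · intro y hy hlt
    rw [wd_zero]
    rintro ⟨k, rfl⟩
    have : k < Nat.find hex := hX.lt_iff_lt.1 hlt
    exact Nat.find_min hex this hy

theorem between (h0 : 0 < D 0) (hD : StrictMono D) {i y : ℕ} (h1 : X D i < y)
    (h2 : y < X D (i + 1)) : wd D y = 0 := by
  have hX := X_strictMono h0 hD
  rw [wd_zero]
  rintro ⟨k, rfl⟩
  have := hX.lt_iff_lt.1 h1
  have := hX.lt_iff_lt.1 h2
  omega

theorem fac_inj (h0 : 0 < D 0) (hD : StrictMono D) {n s s' : ℕ} (h : PP D n s) (h' : PP D n s')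
    (he : fac D n s = fac D n s') : s = s' := by
  have hX := X_strictMono h0 hD
  obtain ⟨i, a1, a2, a3⟩ := first_one h0 hD h
  obtain ⟨k, b1, b2, b3⟩ := first_one h0 hD h'
  have hfe : ∀ y, y < n → wd D (s + y) = wd D (s' + y) := fun y hy => congrFun he ⟨y, hy⟩
  have one : ∀ i, wd D (X D i) = 1 := fun i => wd_one.2 ⟨i, rfl⟩
  have hXi : X D i < X D (i + 1) := hX (Nat.lt_succ_self i)
  have hXk : X D k < X D (k + 1) := hX (Nat.lt_succ_self k)
  have e1 : X D i - s = X D k - s' := by
    rcases lt_trichotomy (X D i - s) (X D k - s') with hlt | heq | hgt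
    · exfalso
      have e := hfe (X D i - s) (by omega)
      rw [show s + (X D i - s) = X D i by omega, one] at e
      rw [b3 _ (by omega) (by omega)] at e
      exact absurd e (by decide)
    · exact heq
    · exfalso
      have e := hfe (X D k - s') (by omega)
      rw [show s' + (X D k - s') = X D k by omega, one] at e
      rw [a3 _ (by omega) (by omega)] at e
      exact absurd e (by decide)
  have e2 : X D (i + 1) - s = X D (k + 1) - s' := by
    rcases lt_trichotomy (X D (i + 1) - s) (X D (k + 1) - s') with hlt | heq | hgt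
    · exfalso
      have e := hfe (X D (i + 1) - s) (by omega)
      rw [show s + (X D (i + 1) - s) = X D (i + 1) by omega, one] at e
      rw [between h0 hD (i := k) (by omega) (by omega)] at e
      exact absurd e (by decide)
    · exact heq
    · exfalso
      have e := hfe (X D (k + 1) - s') (by omega)
      rw [show s' + (X D (k + 1) - s') = X D (k + 1) by omega, one] at e
      rw [between h0 hD (i := i) (by omega) (by omega)] at e
      exact absurd e (by decide)
  have e3 : D i = D k := by
    rw [X_succ] at e2 hXi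
    rw [X_succ] at e2
    omega
  have e4 : i = k := hD.injective e3
  subst e4
  omega

/-- The word with a single one at position `j`. -/
def sing (n : ℕ) (j : Fin n) : Fin n → Fin 2 := fun l => if l = j then 1 else 0

theorem fac_not_PP (h0 : 0 < D 0) (hD : StrictMono D) {n s : ℕ} (h : ¬ PP D n s) :
    fac D n s = (fun _ => 0) ∨ ∃ j, fac D n s = sing n j := by
  have hX := X_strictMono h0 hD
  by_cases hone : ∃ j : Fin n, fac D n s j = 1
  · right
    obtain ⟨j, hj⟩ := hone
    refine ⟨j, ?_⟩
    funext l
    unfold sing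
    split_ifs with hl
    · rw [hl]; exact hj
    · rcases fin2 (fac D n s l) with h1 | h1
      · exact h1
      · exfalso
        apply h
        obtain ⟨p, hp⟩ := wd_one.1 hj
        obtain ⟨q, hq⟩ := wd_one.1 h1
        have hjl : (l : ℕ) ≠ j := fun h => hl (Fin.ext h)
        rcases lt_trichotomy p q with hpq | hpq | hpq
        · refine ⟨p, by omega, ?_⟩
          have := hX.monotone (Nat.succ_le_of_lt hpq)
          have := l.2
          simp only [Nat.succ_eq_add_one] at *
          omega
        · subst hpq; omega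
        · refine ⟨q, by omega, ?_⟩
          have := hX.monotone (Nat.succ_le_of_lt hpq)
          have := j.2
          simp only [Nat.succ_eq_add_one] at *
          omega
  · left
    funext l
    rcases fin2 (fac D n s l) with h1 | h1
    · exact h1
    · exact absurd ⟨l, h1⟩ hone

theorem fac_PP (h0 : 0 < D 0) (hD : StrictMono D) {n s : ℕ} (h : PP D n s) :
    fac D n s ≠ (fun _ => 0) ∧ ∀ j, fac D n s ≠ sing n j := by
  have hX := X_strictMono h0 hD
  obtain ⟨i, h1, h2⟩ := h
  have hlt : X D i < X D (i + 1) := hX (Nat.lt_succ_self i)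
  have f1 : fac D n s ⟨X D i - s, by omega⟩ = 1 := by
    apply wd_one.2
    exact ⟨i, by simp; omega⟩
  have f2 : fac D n s ⟨X D (i + 1) - s, by omega⟩ = 1 := by
    apply wd_one.2
    exact ⟨i + 1, by simp; omega⟩
  refine ⟨fun h => ?_, fun j h => ?_⟩
  · rw [h] at f1
    have f3 : (0 : Fin 2) = 1 := f1
    exact absurd f3 (by decide)
  · rw [h] at f1 f2
    unfold sing at f1 f2
    have g1 : (⟨X D i - s, by omega⟩ : Fin n) = j := by
      by_contra hne; rw [if_neg hne] at f1; exact absurd f1 (by decide)
    have g2 : (⟨X D (i + 1) - s, by omega⟩ : Fin n) = j := by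
      by_contra hne; rw [if_neg hne] at f2; exact absurd f2 (by decide)
    have := congrArg Fin.val (g1.trans g2.symm)
    simp at this
    omega

theorem D_ge (hD : StrictMono D) (i : ℕ) : i ≤ D i := hD.le_apply

theorem zero_factor (h0 : 0 < D 0) (hD : StrictMono D) (n : ℕ) :
    ∃ s, fac D n s = fun _ => 0 := by
  refine ⟨X D (n + 1) + 1, ?_⟩
  funext l
  have g := X_succ (D := D) (n + 1)
  have g2 := D_ge hD (n + 1)
  have hl := l.2
  exact between h0 hD (i := n + 1) (by omega) (by omega)

theorem sing_factor (h0 : 0 < D 0) (hD : StrictMono D) (n : ℕ) (j : Fin n) :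
    ∃ s, fac D n s = sing n j := by
  have hX := X_strictMono h0 hD
  have g1 := D_ge hD n
  have g2 := D_ge hD (n + 1)
  have g3 := X_succ (D := D) n
  have g4 := X_succ (D := D) (n + 1)
  have hj := j.2
  refine ⟨X D (n + 1) - j, ?_⟩
  funext l
  have hl := l.2
  unfold sing
  split_ifs with h
  · subst h
    apply wd_one.2
    exact ⟨n + 1, by omega⟩
  · have hne : (l : ℕ) ≠ j := fun h' => h (Fin.ext h')
    rcases lt_or_gt_of_ne hne with hlt | hgt
    · exact between h0 hD (i := n) (by omega) (by omega)
    · exact between h0 hD (i := n + 1) (by omega) (by omega)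

theorem PP_le (h0 : 0 < D 0) (hD : StrictMono D) {n s k : ℕ} (hk : n ≤ D (k + 1))
    (h : PP D n s) : s ≤ X D k := by
  have hX := X_strictMono h0 hD
  obtain ⟨i, h1, h2⟩ := h
  rw [X_succ] at h2
  have h3 : D i < D (k + 1) := by omega
  have h4 : i < k + 1 := hD.lt_iff_lt.1 h3
  exact h1.trans (hX.monotone (by omega))

theorem PP_finite (h0 : 0 < D 0) (hD : StrictMono D) (n : ℕ) : {s | PP D n s}.Finite := by
  apply (Set.finite_Iic (X D n)).subset
  intro s hs
  exact PP_le h0 hD ((D_ge hD n).trans (hD.monotone (Nat.le_succ n))) hs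

theorem cpx_eq (h0 : 0 < D 0) (hD : StrictMono D) (n : ℕ) :
    cpx (wd D) n = 1 + n + {s | PP D n s}.ncard := by
  classical
  have hset : {w : Fin n → Fin 2 | ∃ i : ℕ, ∀ j : Fin n, w j = wd D (i + j)} =
      ({fun _ => 0} ∪ Set.range (sing n)) ∪ fac D n '' {s | PP D n s} := by
    ext w
    constructor
    · rintro ⟨s, hs⟩
      have hw : w = fac D n s := funext hs
      by_cases hP : PP D n s
      · right; exact ⟨s, hP, hw.symm⟩
      · left
        rcases fac_not_PP h0 hD hP with h | ⟨j, h⟩
        · left; rw [hw, h]; rfl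
        · right; exact ⟨j, by rw [hw, h]⟩
    · rintro ((h | ⟨j, rfl⟩) | ⟨s, -, rfl⟩)
      · obtain ⟨s, hs⟩ := zero_factor h0 hD n
        refine ⟨s, fun j => ?_⟩
        rw [Set.mem_singleton_iff] at h
        rw [h]
        exact (congrFun hs j).symm
      · obtain ⟨s, hs⟩ := sing_factor h0 hD n j
        exact ⟨s, fun l => (congrFun hs l).symm⟩
      · exact ⟨s, fun j => rfl⟩
  have hd1 : Disjoint {fun _ => (0 : Fin 2)} (Set.range (sing n)) := by
    rw [Set.disjoint_singleton_left]
    rintro ⟨j, hj⟩
    have := congrFun hj j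
    unfold sing at this
    rw [if_pos rfl] at this
    exact absurd this (by decide)
  have hd2 : Disjoint ({fun _ => (0 : Fin 2)} ∪ Set.range (sing n))
      (fac D n '' {s | PP D n s}) := by
    rw [Set.disjoint_left]
    rintro w (h | ⟨j, rfl⟩) ⟨s, hs, hw⟩
    · rw [Set.mem_singleton_iff] at h
      rw [h] at hw
      exact (fac_PP h0 hD hs).1 hw
    · exact (fac_PP h0 hD hs).2 j hw
  have e1 : (Set.range (sing n)).ncard = n := by
    rw [← Set.image_univ, Set.ncard_image_of_injective]
    · simp
    · intro i j hij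
      have := congrFun hij i
      unfold sing at this
      rw [if_pos rfl] at this
      by_contra hne
      rw [if_neg hne] at this
      exact absurd this (by decide)
  have e2 : (fac D n '' {s | PP D n s}).ncard = {s | PP D n s}.ncard := by
    apply Set.InjOn.ncard_image
    intro s hs s' hs' he
    exact fac_inj h0 hD hs hs' he
  unfold cpx
  rw [hset, Set.ncard_union_eq hd2, Set.ncard_union_eq hd1, Set.ncard_singleton, e1, e2]

open Classical in
theorem count_aux (h0 : 0 < D 0) (hD : StrictMono D) (n k : ℕ) :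
    ((Finset.Iic (X D k)).filter (PP D n)).card =
      (if D 0 < n then 1 else 0) + ∑ i ∈ Finset.range k, min (D i) (n - D (i + 1)) := by
  have hX := X_strictMono h0 hD
  induction k with
  | zero =>
    have : (Finset.Iic (X D 0)) = {0} := by
      ext x; simp [X]
    rw [this]
    simp only [Finset.range_zero, Finset.sum_empty, add_zero, Finset.filter_singleton]
    have hiff : PP D n 0 ↔ D 0 < n := by
      constructor
      · rintro ⟨i, -, h⟩
        have h1 : X D 1 ≤ X D (i + 1) := hX.monotone (by omega)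
        have h2 : X D 1 = D 0 := by simp [X]
        omega
      · intro h
        exact ⟨0, by simp, by simp [X]; omega⟩
    by_cases h : D 0 < n
    · rw [if_pos (hiff.2 h), if_pos h]; simp
    · rw [if_neg (fun h' => h (hiff.1 h')), if_neg h]; simp
  | succ k ih =>
    rw [Finset.sum_range_succ, ← add_assoc, ← ih]
    have hlt : X D k < X D (k + 1) := hX (Nat.lt_succ_self k)
    have hsplit : (Finset.Iic (X D (k + 1))).filter (PP D n) =
        (Finset.Iic (X D k)).filter (PP D n) ∪
          Finset.Ioc (max (X D k) (X D (k + 2) - n)) (X D (k + 1)) := by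
      ext s
      simp only [Finset.mem_filter, Finset.mem_Iic, Finset.mem_union, Finset.mem_Ioc]
      constructor
      · rintro ⟨h1, h2⟩
        by_cases hs : s ≤ X D k
        · exact Or.inl ⟨hs, h2⟩
        · right
          obtain ⟨i, h3, h4⟩ := h2
          push Not at hs
          have h5 : k < i := hX.lt_iff_lt.1 (lt_of_lt_of_le hs h3)
          have h6 : X D (k + 2) ≤ X D (i + 1) := hX.monotone (by omega)
          exact ⟨by omega, h1⟩
      · rintro (⟨h1, h2⟩ | ⟨h1, h2⟩)
        · exact ⟨by omega, h2⟩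
        · exact ⟨h2, ⟨k + 1, h2, by
            change X D (k + 2) < s + n
            omega⟩⟩
    rw [hsplit, Finset.card_union_of_disjoint]
    · congr 1
      rw [Nat.card_Ioc]
      have e1 : X D (k + 1) = X D k + D k := rfl
      have e2 : X D (k + 2) = X D (k + 1) + D (k + 1) := rfl
      omega
    · rw [Finset.disjoint_left]
      intro s h1 h2
      simp only [Finset.mem_filter, Finset.mem_Iic, Finset.mem_Ioc] at h1 h2
      omega

theorem cpx_formula (h0 : 0 < D 0) (hD : StrictMono D) {n k : ℕ} (hk : n ≤ D (k + 1)) :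
    cpx (wd D) n = 1 + n + ((if D 0 < n then 1 else 0) +
      ∑ i ∈ Finset.range k, min (D i) (n - D (i + 1))) := by
  classical
  rw [cpx_eq h0 hD, ← count_aux h0 hD n k]
  congr 1
  rw [← Set.ncard_coe_finset]
  congr 1
  ext s
  simp only [Set.mem_ofPred_eq, Finset.coe_filter, Finset.mem_Iic]
  exact ⟨fun h => ⟨PP_le h0 hD hk h, h⟩, fun h => h.2⟩

end Pool.Agent.Helper119.LC
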