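import Mathlib

open Filter

namespace Pool.Agent.Helper119.LC

/-- The factor complexity of an infinite word: the number of distinct factors of length `n`. -/
noncomputable def cpx {A : Type*} (u : ℕ → A) (n : ℕ) : ℕ :=
  Set.ncard {w : Fin n → A | ∃ i : ℕ, ∀ j : Fin n, w j = u (i + j)}

/-- The set of all pairs `(liminf p(n)/n, limsup p(n)/n)` of infinite words over finite alphabets
with `p(n) = O(n)`. -/
def LS : Set (ℝ × ℝ) :=
  {q | ∃ (k : ℕ) (u : ℕ → Fin k), (∃ C : ℕ, ∀ n : ℕ, 1 ≤ n → cpx u n ≤ C * n) ∧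
    liminf (fun n : ℕ => (cpx u n : ℝ) / n) atTop = q.1 ∧
    limsup (fun n : ℕ => (cpx u n : ℝ) / n) atTop = q.2}

/-- First coordinate of the curve (on the piece number `m`). -/
noncomputable def cA (m : ℕ) (s : ℝ) : ℝ := m + 1 + s * (s ^ (m + 1) + s ^ m - 1) / (1 - s)

/-- Second coordinate of the curve (on the piece number `m`). -/
noncomputable def cB (m : ℕ) (s : ℝ) : ℝ :=
  m + 1 + (s ^ (m + 1) + s ^ m - 1) / (s ^ m * (1 - s ^ 2))

end Pool.Agent.Helper119.LC
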