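import Pool.Agent.Helper119.LC.Core

open Filter Topology

namespace Pool.Agent.Helper119.LC

theorem strict_sum {x y : ℝ} (hx : 0 ≤ x) (hxy : x < y) (m : ℕ) :
    x ^ (m + 1) + x ^ m < y ^ (m + 1) + y ^ m := by
  have h1 : x ^ (m + 1) < y ^ (m + 1) := pow_lt_pow_left₀ hxy hx (by omega)
  have h2 : x ^ m ≤ y ^ m := pow_le_pow_left₀ hx hxy.le m
  linarith

theorem exists_end (m : ℕ) : ∃ x : ℝ, 0 ≤ x ∧ x < 1 ∧ x ^ (m + 1) + x ^ m = 1 := by
  rcases Nat.eq_zero_or_pos m with rfl | hm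
  · exact ⟨0, le_rfl, one_pos, by simp⟩
  · have hc : ContinuousOn (fun x : ℝ => x ^ (m + 1) + x ^ m) (Set.Icc 0 1) := by fun_prop
    have h := intermediate_value_Icc (zero_le_one' ℝ) hc
    have h0 : (0 : ℝ) ^ (m + 1) + 0 ^ m = 0 := by
      rw [zero_pow (by omega), zero_pow (by omega)]; simp
    have h1 : (1 : ℝ) ^ (m + 1) + 1 ^ m = 2 := by norm_num
    obtain ⟨x, ⟨hx0, hx1⟩, hx⟩ := h (show (1 : ℝ) ∈ Set.Icc _ _ by
      simp only [h0, h1]; constructor <;> norm_num)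
    refine ⟨x, hx0, ?_, hx⟩
    rcases hx1.lt_or_eq with h | h
    · exact h
    · exfalso
      rw [h] at hx
      simp only [h1] at hx
      norm_num at hx

theorem val_of_mem {m : ℕ} {x y t : ℝ} (hx0 : 0 ≤ x) (hx : x ^ (m + 1) + x ^ m = 1)
    (hy : y ^ (m + 2) + y ^ (m + 1) = 1) (hxt : x ≤ t) (hty : t ≤ y) : Val m t := by
  have ht0 := hx0.trans hxt
  constructor
  · rw [← hy]
    exact add_le_add (pow_le_pow_left₀ ht0 hty _) (pow_le_pow_left₀ ht0 hty _)
  · rw [← hx]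
    exact add_le_add (pow_le_pow_left₀ hx0 hxt _) (pow_le_pow_left₀ hx0 hxt _)

theorem ends_le {m : ℕ} {x y : ℝ} (hy0 : 0 ≤ y) (hy1 : y < 1)
    (hx : x ^ (m + 1) + x ^ m = 1) (hy : y ^ (m + 2) + y ^ (m + 1) = 1) : x ≤ y := by
  by_contra h
  push Not at h
  have h1 := strict_sum hy0 h m
  have h2 : y ^ (m + 2) + y ^ (m + 1) ≤ y ^ (m + 1) + y ^ m :=
    add_le_add (pow_le_pow_of_le_one hy0 hy1.le (by omega))
      (pow_le_pow_of_le_one hy0 hy1.le (by omega))
  linarith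

theorem surj_A {α : ℝ} (hα : 1 ≤ α) : ∃ (m : ℕ) (s : ℝ), 0 ≤ s ∧ s < 1 ∧ Val m s ∧ cA m s = α := by
  obtain ⟨m, hm1, hm2⟩ : ∃ m : ℕ, (m : ℝ) + 1 ≤ α ∧ α ≤ m + 2 := by
    refine ⟨⌊α - 1⌋₊, ?_, ?_⟩
    · have := Nat.floor_le (show 0 ≤ α - 1 by linarith)
      linarith
    · have := Nat.lt_floor_add_one (α - 1)
      linarith
  obtain ⟨x, hx0, hx1, hx⟩ := exists_end m
  obtain ⟨y, hy0, hy1, hy⟩ := exists_end (m + 1)
  have hxy := ends_le hy0 hy1 hx hy
  have hc : ContinuousOn (cA m) (Set.Icc x y) := by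
    unfold cA
    refine ContinuousOn.add continuousOn_const (ContinuousOn.div (by fun_prop) (by fun_prop) ?_)
    intro t ht
    have := ht.2
    linarith
  have h := intermediate_value_Icc hxy hc
  have e1 : cA m x = m + 1 := by unfold cA; rw [hx]; simp
  have e2 : cA m y = m + 2 := by
    rw [cA_eq' hy1]; unfold MM
    have : 1 - y ^ (m + 2) - y ^ (m + 1) = 0 := by linarith
    rw [this]; simp
  obtain ⟨s, ⟨h1, h2⟩, h3⟩ := h (show α ∈ Set.Icc _ _ by rw [e1, e2]; exact ⟨hm1, hm2⟩)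
  exact ⟨m, s, hx0.trans h1, lt_of_le_of_lt h2 hy1, val_of_mem hx0 hx hy h1 h2, h3⟩

theorem surj_B {β : ℝ} (hβ : 1 ≤ β) : ∃ (m : ℕ) (s : ℝ), 0 ≤ s ∧ s < 1 ∧ Val m s ∧ cB m s = β := by
  obtain ⟨m, hm1, hm2⟩ : ∃ m : ℕ, (m : ℝ) + 1 ≤ β ∧ β ≤ m + 2 := by
    refine ⟨⌊β - 1⌋₊, ?_, ?_⟩
    · have := Nat.floor_le (show 0 ≤ β - 1 by linarith)
      linarith
    · have := Nat.lt_floor_add_one (β - 1)
      linarith
  obtain ⟨x, hx0, hx1, hx⟩ := exists_end m
  obtain ⟨y, hy0, hy1, hy⟩ := exists_end (m + 1)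
  have hxy := ends_le hy0 hy1 hx hy
  have hne : ∀ t ∈ Set.Icc x y, t ^ m * (1 - t ^ 2) ≠ 0 := by
    intro t ht
    have ht0 := hx0.trans ht.1
    have h2 : 1 - t ^ 2 ≠ 0 := by nlinarith [ht.2]
    refine mul_ne_zero ?_ h2
    intro h0
    have hv := val_of_mem hx0 hx hy ht.1 ht.2
    have := hv.2
    rw [pow_succ, h0] at this
    linarith
  have hc : ContinuousOn (cB m) (Set.Icc x y) := by
    unfold cB
    refine ContinuousOn.add continuousOn_const (ContinuousOn.div (by fun_prop) (by fun_prop) hne)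
  have h := intermediate_value_Icc hxy hc
  have e1 : cB m x = m + 1 := by unfold cB; rw [hx]; simp
  have e2 : cB m y = m + 2 := by
    rw [cB_eq (hne y ⟨hxy, le_rfl⟩)]; unfold MM
    have : 1 - y ^ (m + 2) - y ^ (m + 1) = 0 := by linarith
    rw [this]; simp
  obtain ⟨s, ⟨h1, h2⟩, h3⟩ := h (show β ∈ Set.Icc _ _ by rw [e1, e2]; exact ⟨hm1, hm2⟩)
  exact ⟨m, s, hx0.trans h1, lt_of_le_of_lt h2 hy1, val_of_mem hx0 hx hy h1 h2, h3⟩

theorem cB_zero : cB 0 0 = 1 := by unfold cB; simp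

theorem cB_mono' {m m' : ℕ} {s s' : ℝ} (h0 : 0 ≤ s) (h : s ≤ s') (h1 : s' < 1) (hv : Val m s)
    (hv' : Val m' s') : cB m s ≤ cB m' s' := by
  rcases h0.lt_or_eq with h2 | h2
  · exact cB_mono h2 h h1 hv hv'
  · subst h2
    have hm := val_zero hv
    subst hm
    rcases h.lt_or_eq with h3 | h3
    · have := (cB_bds h3 h1 hv').1
      have h4 : (0 : ℝ) ≤ m' := Nat.cast_nonneg _
      rw [cB_zero]; linarith
    · subst h3
      have hm' := val_zero hv'
      subst hm'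
      exact le_rfl

theorem cB_one_le {m : ℕ} {s : ℝ} (h0 : 0 ≤ s) (h1 : s < 1) (hv : Val m s) : 1 ≤ cB m s := by
  have h2 : Val 0 (0 : ℝ) := by constructor <;> simp
  have := cB_mono' le_rfl h0 h1 h2 hv
  rwa [cB_zero] at this

theorem gap {m : ℕ} {s : ℝ} (h0 : 0 ≤ s) (h1 : s < 1) (hv : Val m s) :
    cA m s ≤ cB m s ∧ cB m s ≤ cA m s + 1 / (4 * (m + 1)) := by
  have hN : 0 ≤ NN m s := by unfold NN; linarith [hv.2]
  have hM : 0 ≤ MM m s := by unfold MM; linarith [hv.1]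
  have h1s : 0 < 1 - s := by linarith
  have hsm : 0 < s ^ m := by
    rcases (pow_nonneg h0 m).lt_or_eq with h | h
    · exact h
    · exfalso
      have := hv.2
      rw [pow_succ, ← h] at this
      linarith
  have hK : 0 < s ^ m * (1 - s ^ 2) := by
    have : 0 < 1 - s ^ 2 := by nlinarith
    positivity
  have hNM := NM m s
  have e : cB m s - cA m s = NN m s * MM m s / (s ^ m * (1 - s ^ 2)) := by
    have e1 : cB m s = m + 1 + NN m s / (s ^ m * (1 - s ^ 2)) := rfl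
    have e2 : cA m s = m + 1 + s * NN m s / (1 - s) := rfl
    rw [e1, e2]
    have h2 : 1 - s ^ 2 ≠ 0 := by nlinarith
    have h3 : MM m s = 1 - s * (s ^ m * (1 + s)) := by unfold MM; ring
    rw [h3]
    have h4 : 1 - s ^ 2 = (1 - s) * (1 + s) := by ring
    have h5 : 1 + s ≠ 0 := by linarith
    rw [h4]
    field_simp
    ring
  have hnn : 0 ≤ NN m s * MM m s / (s ^ m * (1 - s ^ 2)) := by positivity
  refine ⟨by linarith, ?_⟩
  have h3 : NN m s * MM m s / (s ^ m * (1 - s ^ 2)) ≤ s ^ m * (1 - s ^ 2) / 4 := by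
    rw [div_le_iff₀ hK, ← hNM]
    nlinarith [sq_nonneg (NN m s - MM m s)]
  have h4 : ((m : ℝ) + 1) * (s ^ m * (1 - s)) ≤ 1 - s ^ (m + 1) := by
    have hg : (1 - s) * ∑ i ∈ Finset.range (m + 1), s ^ i = 1 - s ^ (m + 1) := by
      have := mul_neg_geom_sum s (m + 1)
      linarith
    have hle : ((m : ℝ) + 1) * s ^ m ≤ ∑ i ∈ Finset.range (m + 1), s ^ i := by
      have : ∑ i ∈ Finset.range (m + 1), s ^ m ≤ ∑ i ∈ Finset.range (m + 1), s ^ i := by
        apply Finset.sum_le_sum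
        intro i hi
        rw [Finset.mem_range] at hi
        exact pow_le_pow_of_le_one h0 h1.le (by omega)
      rw [Finset.sum_const, Finset.card_range, nsmul_eq_mul] at this
      push_cast at this
      exact this
    rw [← hg]
    have := mul_le_mul_of_nonneg_left hle h1s.le
    linarith
  have h5 : s ^ m * (1 - s ^ 2) ≤ 1 / (m + 1) := by
    rw [le_div_iff₀ (by positivity)]
    have h6 : s ^ m * (1 - s ^ 2) * ((m : ℝ) + 1) = ((m + 1) * (s ^ m * (1 - s))) * (1 + s) := by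
      ring
    rw [h6]
    have h7 : ((m : ℝ) + 1) * (s ^ m * (1 - s)) * (1 + s) ≤ (1 - s ^ (m + 1)) * (1 + s) :=
      mul_le_mul_of_nonneg_right h4 (by linarith)
    have h8 : (1 - s ^ (m + 1)) * (1 + s) = 1 + s - s * (s ^ (m + 1) + s ^ m) := by ring
    have h9 : s * 1 ≤ s * (s ^ (m + 1) + s ^ m) := mul_le_mul_of_nonneg_left hv.2 h0
    linarith
  have h10 : 1 / (4 * ((m : ℝ) + 1)) = 1 / (m + 1) / 4 := by
    field_simp
  rw [h10]
  linarith

theorem region (α : ℝ) (hα : 1 ≤ α) : ∃ (m : ℕ) (s : ℝ), 0 ≤ s ∧ s < 1 ∧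
    s ^ (m + 2) + s ^ (m + 1) ≤ 1 ∧ 1 ≤ s ^ (m + 1) + s ^ m ∧ cA m s = α ∧
    (∀ β : ℝ, cB m s ≤ β → (α, β) ∈ LS) ∧
    α ≤ cB m s ∧ cB m s ≤ α + 1 / (4 * (m + 1)) ∧ ((∃ j : ℕ, α = j) → cB m s = α) := by
  obtain ⟨m, s, h0, h1, hv, hA⟩ := surj_A hα
  have hg := gap h0 h1 hv
  rw [hA] at hg
  refine ⟨m, s, h0, h1, hv.1, hv.2, hA, ?_, hg.1, hg.2, ?_⟩
  · intro β hβ
    have hβ1 : 1 ≤ β := (cB_one_le h0 h1 hv).trans hβ
    obtain ⟨k, y, hy0, hy1, hk, hB⟩ := surj_B hβ1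
    rcases le_total s y with h | h
    · rw [← hA, ← hB]
      exact mem_LS h0 h hy1 hv hk
    · have h2 := cB_mono' hy0 h h1 hk hv
      have h3 : β = cB m s := by linarith
      rw [← hA, h3]
      exact mem_LS h0 le_rfl h1 hv hv
  · rintro ⟨j, hj⟩
    have hb := cA_bds h0 h1 hv
    rw [hA, hj] at hb
    have hj1 : m + 1 ≤ j := by exact_mod_cast hb.1
    have hj2 : j ≤ m + 2 := by exact_mod_cast hb.2
    have hcase : j = m + 1 ∨ j = m + 2 := by omega
    rcases hcase with rfl | rfl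
    · have e : s * (s ^ (m + 1) + s ^ m - 1) / (1 - s) = 0 := by
        have : cA m s = m + 1 + s * (s ^ (m + 1) + s ^ m - 1) / (1 - s) := rfl
        rw [hA, hj] at this
        push_cast at this
        linarith
      rw [div_eq_zero_iff] at e
      have hne : 1 - s ≠ 0 := by linarith
      rcases e with e | e
      · rcases mul_eq_zero.1 e with e | e
        · subst e
          have := val_zero hv
          subst this
          rw [cB_zero, hj]; simp
        · unfold cB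
          rw [e, hj]; simp
      · exact absurd e hne
    · have hne : 1 - s ≠ 0 := by linarith
      have e : MM m s = 0 := by
        have h2 := cA_eq' (m := m) h1
        rw [hA, hj] at h2
        push_cast at h2
        have h3 : MM m s / (1 - s) = 0 := by linarith
        rcases div_eq_zero_iff.1 h3 with h | h
        · exact h
        · exact absurd h hne
      have hK : s ^ m * (1 - s ^ 2) ≠ 0 := by
        intro h
        have h2 := NM m s
        rw [h, e, add_zero] at h2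
        have h3 : MM m s = 0 := e
        unfold MM at h3
        unfold NN at h2
        have h4 : s ^ (m + 1) * s = s ^ (m + 2) := by ring
        have h5 : s ^ m = s ^ (m + 2) := by linarith
        have h6 : s ^ (m + 1) ≤ s ^ m := pow_le_pow_of_le_one h0 h1.le (by omega)
        have h7 : s ^ (m + 2) ≤ s ^ (m + 1) := pow_le_pow_of_le_one h0 h1.le (by omega)
        have h8 : s ^ (m + 1) = s ^ (m + 2) := by linarith
        have h9 : s ^ (m + 1) * (1 - s) = 0 := by rw [mul_sub, h4, ← h8]; ring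
        rcases mul_eq_zero.1 h9 with h | h
        · rw [h] at h8; linarith
        · exact absurd h hne
      rw [cB_eq hK, e, hj]; simp

end Pool.Agent.Helper119.LC
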